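import Pool.Agent.R497.TB.Defs

/-!
# Project TB, BFIN: induction over the factors (boxes)
-/

set_option autoImplicit false

namespace Pool.Agent.R725.TB

open MeasureTheory Filter Finset
open Pool.Agent.R497.TB
open Pool.Agent.Y957.MC (IsFlow flowInv smo box bavg)

universe u

/-- the weights formed from the factors of lower degree are good -/
theorem bgood (h2 : S_BFG.{u}) (h3 : S_BPROD.{u}) (h4 : S_BWG.{u}) {X : Type u} [MeasurableSpace X]
    (μ : Measure X) [IsProbabilityMeasure μ] {k r : ℕ} {τ : Fin r → ℝ → X → X} {f : Fin r → X → ℂ}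
    {p : Fin r → Fin k → Polynomial ℝ} {dg : Fin r → ℕ} {W : (Fin k → ℕ) → X → ℂ} (hk : 0 < k)
    (hτ : ∀ j, IsFlow μ (τ j))
    (hf : ∀ j, AEStronglyMeasurable (f j) μ) (hfb : ∀ j, ∃ C : ℝ, ∀ᵐ x ∂μ, ‖f j x‖ ≤ C)
    (hP : ∀ j, SD (p j) (dg j)) (hW : ∀ n, AEStronglyMeasurable (W n) μ)
    (hWb : ∃ C : ℝ, ∀ n, ∀ᵐ x ∂μ, ‖W n x‖ ≤ C) (d : ℕ) (s : Finset (Fin r))
    (hd : ∀ j ∈ s, dg j < d) :
    GoodWb μ d (fun n a x => W n x * ∏ j ∈ s, f j (τ j (a * sep (p j) n) x)) := by
  induction s using Finset.induction_on with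
  | empty =>
    simp only [prod_empty, mul_one]
    exact h4 X μ k d W hW hWb
  | insert i s hi ih =>
    have h5 := ih fun j hj => hd j (mem_insert_of_mem hj)
    have h6 := h2 X μ (τ i) (f i) k d (dg i) (p i) hk (hτ i) (hf i) (hfb i) (hP i)
      (hd i (mem_insert_self _ _))
    have h7 := h3 X μ k d _ _ h5 h6
    have e : (fun (n : Fin k → ℕ) (a : ℝ) (x : X) => W n x *
        ∏ j ∈ insert i s, f j (τ j (a * sep (p j) n) x)) =
        fun (n : Fin k → ℕ) (a : ℝ) (x : X) => (W n x * ∏ j ∈ s, f j (τ j (a * sep (p j) n) x)) *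
          f i (τ i (a * sep (p i) n) x) := by
      funext n a x
      rw [prod_insert hi]
      ring
    rw [e]
    exact h7

/-- BFIN -/
theorem t_BFIN (h1 : S_BTOP.{u}) (h2 : S_BFG.{u}) (h3 : S_BPROD.{u}) (h4 : S_BWG.{u}) : S_BFIN.{u} := by
  classical
  intro X _ μ _ k r τ f p dg W hk hτ hf hfb hP hinj hW hWb
  suffices H : ∀ s : Finset (Fin r), ∀ᵐ a : ℝ, ∀ᵐ x ∂μ,
      Tendsto (fun M => bavg M (fun m => W m x * ∏ j ∈ s, f j (τ j (a * sep (p j) m) x)) -
        (∏ j ∈ s, (μ[f j | flowInv (τ j)]) x) * bavg M (fun m => W m x))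
        atTop (nhds 0) from H univ
  intro s
  induction s using Finset.induction_on_max_value dg with
  | empty =>
    refine Eventually.of_forall fun a => Eventually.of_forall fun x => ?_
    simp only [prod_empty, mul_one, one_mul, sub_self]
    exact tendsto_const_nhds
  | insert i s hi hmax ih =>
    have hd : ∀ j ∈ s, dg j < dg i := by
      intro j hj
      refine lt_of_le_of_ne (hmax j hj) fun h => ?_
      have h5 : j = i := hinj h
      rw [h5] at hj
      exact hi hj
    have hg := bgood h2 h3 h4 μ hk hτ hf hfb hP hW hWb (dg i) s hd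
    have ht := h1 X μ (τ i) (f i) k (dg i) (p i) _ hk (hτ i) (hf i) (hfb i) (hP i) hg
    filter_upwards [ih, ht] with a ha1 ha2
    filter_upwards [ha1, ha2] with x hx1 hx2
    have h5 := hx2.add (hx1.const_mul ((μ[f i | flowInv (τ i)]) x))
    rw [mul_zero, add_zero] at h5
    refine h5.congr fun N => ?_
    unfold bavg
    have e1 : ∑ n ∈ box N, (W n x * ∏ j ∈ s, f j (τ j (a * sep (p j) n) x)) *
        (f i (τ i (a * sep (p i) n) x) - (μ[f i | flowInv (τ i)]) x) =
        (∑ n ∈ box N, W n x * ∏ j ∈ insert i s, f j (τ j (a * sep (p j) n) x)) -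
        (μ[f i | flowInv (τ i)]) x *
          ∑ n ∈ box N, W n x * ∏ j ∈ s, f j (τ j (a * sep (p j) n) x) := by
      rw [mul_sum, ← sum_sub_distrib]
      refine sum_congr rfl fun n _ => ?_
      rw [prod_insert hi]
      ring
    rw [e1, prod_insert hi]
    ring

end Pool.Agent.R725.TB
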