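import Pool.Agent.R725.FrobIdeal

set_option autoImplicit false
set_option linter.unusedSectionVars false

namespace Pool.Agent.R725.Comod

open TensorProduct Coalgebra

section comod

variable {k : Type*} [Field k] {B : Type*} [CommRing B] [HopfAlgebra k B]
  {M : Type*} [AddCommGroup M] [Module k M]

/-- the convolution of two functionals -/
noncomputable def conv (θ η : B →ₗ[k] k) : B →ₗ[k] k :=
  LinearMap.mul' k k ∘ₗ TensorProduct.map θ η ∘ₗ comul

/-- the operator given by a functional -/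
noncomputable def T (ρ : M →ₗ[k] M ⊗[k] B) (θ : B →ₗ[k] k) : M →ₗ[k] M :=
  (TensorProduct.rid k M).toLinearMap ∘ₗ θ.lTensor M ∘ₗ ρ

lemma T_T (ρ : M →ₗ[k] M ⊗[k] B) (hρ : IsRational ρ) (θ η : B →ₗ[k] k) (m : M) :
    T ρ θ (T ρ η m) = T ρ (conv θ η) m := by
  have key : ∀ t : M ⊗[k] B, T ρ θ (TensorProduct.rid k M (η.lTensor M t)) =
      TensorProduct.rid k M ((LinearMap.mul' k k ∘ₗ TensorProduct.map θ η).lTensor M
        (TensorProduct.assoc k M B B (ρ.rTensor B t))) := by
    intro t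
    induction t with
    | zero => simp
    | add x y hx hy => simp only [map_add, hx, hy]
    | tmul m' b =>
      have key2 : ∀ s : M ⊗[k] B, η b • TensorProduct.rid k M (θ.lTensor M s) =
          TensorProduct.rid k M ((LinearMap.mul' k k ∘ₗ TensorProduct.map θ η).lTensor M
            (TensorProduct.assoc k M B B (s ⊗ₜ[k] b))) := by
        intro s
        induction s with
        | zero => simp
        | add x y hx hy => simp only [map_add, smul_add, TensorProduct.add_tmul, hx, hy]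
        | tmul m'' a =>
          simp [smul_smul, mul_comm]
      simp only [LinearMap.lTensor_tmul, LinearMap.rTensor_tmul, TensorProduct.rid_tmul, map_smul]
      rw [← key2]
      rfl
  have h1 := key (ρ m)
  rw [hρ.coassoc, ← LinearMap.lTensor_comp_apply] at h1
  exact h1

variable {C : Type*} [CommRing C] [HopfAlgebra k C]

lemma lam_T (π : B →ₐc[k] C) (ρ : M →ₗ[k] M ⊗[k] B) (φ : M ≃ₗ[k] C)
    (hφ : ∀ m, TensorProduct.map φ.toLinearMap (π : B →ₗ[k] C) (ρ m) = comul (φ m))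
    (θ : C →ₗ[k] k) (m : M) :
    counit (R := k) (φ (T ρ (θ ∘ₗ (π : B →ₗ[k] C)) m)) = θ (φ m) := by
  have key : ∀ t : M ⊗[k] B, counit (R := k) (φ (TensorProduct.rid k M
      ((θ ∘ₗ (π : B →ₗ[k] C)).lTensor M t))) =
      LinearMap.mul' k k (TensorProduct.map counit θ (TensorProduct.map φ.toLinearMap
      (π : B →ₗ[k] C) t)) := by
    intro t
    induction t with
    | zero => simp
    | add x y hx hy => simp only [map_add, hx, hy]
    | tmul m' b => simp [mul_comm]
  have h1 := key (ρ m)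
  rw [hφ] at h1
  have h2 : LinearMap.mul' k k (TensorProduct.map counit θ
      (comul (R := k) (φ m))) = θ (φ m) := by
    have h3 := congrArg (LinearMap.mul' k k) (congrArg (LinearMap.lTensor k θ)
      (Coalgebra.rTensor_counit_comul (R := k) (φ m)))
    rw [← LinearMap.comp_apply (LinearMap.lTensor _ _), LinearMap.lTensor_comp_rTensor] at h3
    simpa using h3
  rw [h2] at h1
  exact h1

end comod

section vanish

lemma vanish {k R : Type*} [Field k] [CommRing R] [Algebra k R] (Θ : R →ₗ[k] k) (S : Set R)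
    (h : ∀ s ∈ S, ∀ t, Θ (t * s) = 0) : ∀ a ∈ Ideal.span S, Θ a = 0 := by
  intro a ha
  have h1 : ∀ t, Θ (t * a) = 0 := by
    refine Submodule.span_induction (p := fun a _ => ∀ t, Θ (t * a) = 0) ?_ ?_ ?_ ?_ ha
    · intro s hs t
      exact h s hs t
    · intro t
      simp
    · intro a b _ _ ha hb t
      rw [mul_add, map_add, ha, hb, add_zero]
    · intro c a _ ha t
      rw [smul_eq_mul, ← mul_assoc]
      exact ha _
  simpa using h1 1

end vanish

section main

variable {k : Type*} [Field k] {B : Type*} [CommRing B] [HopfAlgebra k B] (p r : ℕ)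
  [Fact p.Prime] [CharP k p] (x y z : B)
  (hx : comul (R := k) x = x ⊗ₜ[k] 1 + 1 ⊗ₜ[k] x)
  (hy : comul (R := k) y = y ⊗ₜ[k] 1 + 1 ⊗ₜ[k] y)
  (hz : comul (R := k) z = z ⊗ₜ[k] 1 + 1 ⊗ₜ[k] z + x ⊗ₜ[k] (y ^ (p ^ r)))
  (hx0 : counit (R := k) x = 0) (hy0 : counit (R := k) y = 0) (hz0 : counit (R := k) z = 0)
  (b : Module.Basis (ℕ × ℕ × ℕ) k B) (hb : ∀ i j l, b (i, j, l) = x ^ i * y ^ j * z ^ l)

include hx hy hz hx0 hy0 hz0 hb

lemma conv_comm (θ η : B →ₗ[k] k) (hθ : ∀ a, θ (a * y ^ (p ^ r)) = 0)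
    (hη : ∀ a, η (a * y ^ (p ^ r)) = 0) : conv θ η = conv η θ := by
  refine b.ext ?_
  rintro ⟨i, j, l⟩
  set J : Ideal (B ⊗[k] B) := Ideal.span {x ⊗ₜ[k] (y ^ (p ^ r)), (y ^ (p ^ r)) ⊗ₜ[k] x} with hJ
  have hm1 : x ⊗ₜ[k] (y ^ (p ^ r)) ∈ J := Ideal.subset_span (by simp)
  have hm2 : (y ^ (p ^ r)) ⊗ₜ[k] x ∈ J := Ideal.subset_span (by simp)
  have hvan : ∀ t ∈ J, (LinearMap.mul' k k ∘ₗ TensorProduct.map θ η) t = 0 := by
    refine vanish _ _ ?_
    intro s hs t
    rcases hs with rfl | rfl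
    · induction t with
      | zero => simp
      | add a b ha hb => rw [add_mul, map_add, ha, hb, add_zero]
      | tmul a b => simp [hη]
    · induction t with
      | zero => simp
      | add a b ha hb => rw [add_mul, map_add, ha, hb, add_zero]
      | tmul a b => simp [hθ]
  have hmk : Ideal.Quotient.mk J (Bialgebra.comulAlgHom k B (b (i, j, l))) =
      Ideal.Quotient.mk J (Algebra.TensorProduct.comm k B B
        (Bialgebra.comulAlgHom k B (b (i, j, l)))) := by
    have hX : Algebra.TensorProduct.comm k B B (Bialgebra.comulAlgHom k B x) =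
      Bialgebra.comulAlgHom k B x := by
      simp [hx, add_comm]
    have hY : Algebra.TensorProduct.comm k B B (Bialgebra.comulAlgHom k B y) =
      Bialgebra.comulAlgHom k B y := by
      simp [hy, add_comm]
    have hZ : Ideal.Quotient.mk J (Algebra.TensorProduct.comm k B B (Bialgebra.comulAlgHom k B z)) =
      Ideal.Quotient.mk J (Bialgebra.comulAlgHom k B z) := by
      rw [Ideal.Quotient.eq]
      have : Algebra.TensorProduct.comm k B B (Bialgebra.comulAlgHom k B z) -
          Bialgebra.comulAlgHom k B z = (y ^ (p ^ r)) ⊗ₜ[k] x - x ⊗ₜ[k] (y ^ (p ^ r)) := by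
        simp only [Bialgebra.comulAlgHom_apply, hz, map_add, Algebra.TensorProduct.comm_tmul]
        ring
      rw [this]
      exact J.sub_mem hm2 hm1
    rw [hb]
    simp only [map_mul, map_pow, hX, hY, hZ]
  have h1 := hvan _ (Ideal.Quotient.eq.1 hmk)
  rw [map_sub, sub_eq_zero] at h1
  have h2 : ∀ t : B ⊗[k] B, (LinearMap.mul' k k ∘ₗ TensorProduct.map θ η)
      (Algebra.TensorProduct.comm k B B t) = (LinearMap.mul' k k ∘ₗ TensorProduct.map η θ) t := by
    intro t
    induction t with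
    | zero => simp
    | add a b ha hb => simp only [map_add, ha, hb]
    | tmul a b => simp [mul_comm]
  rw [h2] at h1
  exact h1

/-- the derivation `x ∂/∂z` -/
noncomputable def D (b : Module.Basis (ℕ × ℕ × ℕ) k B) : B →ₗ[k] B :=
  b.constr k (fun γ => (γ.2.2 : k) • b (γ.1 + 1, γ.2.1, γ.2.2 - 1))

lemma b_mul_x (i j l n : ℕ) : b (i, j, l) * x ^ n = b (i + n, j, l) := by
  rw [hb, hb]; ring

lemma b_mul_y (i j l n : ℕ) : b (i, j, l) * y ^ n = b (i, j + n, l) := by
  rw [hb, hb]; ring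

lemma b_mul_z (i j l n : ℕ) : b (i, j, l) * z ^ n = b (i, j, l + n) := by
  rw [hb, hb]; ring

lemma coord_x (i j l n : ℕ) (h : i < n) (a : B) : b.coord (i, j, l) (a * x ^ n) = 0 := by
  have : b.coord (i, j, l) ∘ₗ LinearMap.mulRight k (x ^ n) = 0 := by
    refine b.ext ?_
    rintro ⟨i', j', l'⟩
    rw [LinearMap.comp_apply, LinearMap.mulRight_apply, b_mul_x p r x y z hx hy hz hx0 hy0 hz0 b hb]
    simp [Finsupp.single_apply]
    omega
  exact LinearMap.congr_fun this a

lemma coord_y (i j l n : ℕ) (h : j < n) (a : B) : b.coord (i, j, l) (a * y ^ n) = 0 := by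
  have : b.coord (i, j, l) ∘ₗ LinearMap.mulRight k (y ^ n) = 0 := by
    refine b.ext ?_
    rintro ⟨i', j', l'⟩
    rw [LinearMap.comp_apply, LinearMap.mulRight_apply, b_mul_y p r x y z hx hy hz hx0 hy0 hz0 b hb]
    simp [Finsupp.single_apply]
    omega
  exact LinearMap.congr_fun this a

lemma coord_z (i j l n : ℕ) (h : l < n) (a : B) : b.coord (i, j, l) (a * z ^ n) = 0 := by
  have : b.coord (i, j, l) ∘ₗ LinearMap.mulRight k (z ^ n) = 0 := by
    refine b.ext ?_
    rintro ⟨i', j', l'⟩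
    rw [LinearMap.comp_apply, LinearMap.mulRight_apply, b_mul_z p r x y z hx hy hz hx0 hy0 hz0 b hb]
    simp [Finsupp.single_apply]
    omega
  exact LinearMap.congr_fun this a

omit [HopfAlgebra k B] [Fact p.Prime] [CharP k p] hx hy hz hx0 hy0 hz0 hb in
lemma ring_aux1 {R : Type*} [CommRing R] (u w t : R) (q : ℕ) (hq : 1 ≤ q) (ht : t ^ (q + 1) = 0)
    (l : ℕ) : (w + u * t ^ q) ^ l = w ^ l + l * (u * w ^ (l - 1) * t ^ q) := by
  induction l with
  | zero => simp
  | succ l ih =>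
    have h2 : t ^ q * t ^ q = 0 := by
      obtain ⟨q', rfl⟩ : ∃ q', q = q' + 1 := ⟨q - 1, by omega⟩
      have : t ^ (q' + 1) * t ^ (q' + 1) = t ^ (q' + 1 + 1) * t ^ q' := by ring
      rw [this, ht, zero_mul]
    rw [pow_succ, ih]
    rcases l with _ | l
    · simp
    · simp only [Nat.add_sub_cancel]
      push_cast
      linear_combination ((l : R) + 1) * u ^ 2 * w ^ l * h2

omit [HopfAlgebra k B] [Fact p.Prime] [CharP k p] hx hy hz hx0 hy0 hz0 hb in
lemma ring_aux2 {R : Type*} [CommRing R] (v t : R) (q : ℕ) (ht : t ^ (q + 1) = 0)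
    (j : ℕ) : (v + t) ^ j * t ^ q = v ^ j * t ^ q := by
  induction j with
  | zero => simp
  | succ j ih =>
    rw [pow_succ]
    linear_combination (v + t) * ih + v ^ j * ht

lemma conv_sub (θ : B →ₗ[k] k) (a : B) :
    conv θ (b.coord (0, p ^ r, 0)) a - conv (b.coord (0, p ^ r, 0)) θ a = θ (D b a) := by
  have hlin : conv θ (b.coord (0, p ^ r, 0)) - conv (b.coord (0, p ^ r, 0)) θ = θ ∘ₗ D b := by
    refine b.ext ?_
    rintro ⟨i, j, l⟩
    set L : Ideal (B ⊗[k] B) := Ideal.span {1 ⊗ₜ[k] x, 1 ⊗ₜ[k] z, 1 ⊗ₜ[k] (y ^ (p ^ r + 1))} with hL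
    have hm1 : (1 : B) ⊗ₜ[k] x ∈ L := Ideal.subset_span (by simp)
    have hm2 : (1 : B) ⊗ₜ[k] z ∈ L := Ideal.subset_span (by simp)
    have hm3 : (1 : B) ⊗ₜ[k] (y ^ (p ^ r + 1)) ∈ L := Ideal.subset_span (by simp)
    have hvan : ∀ t ∈ L, (LinearMap.mul' k k ∘ₗ TensorProduct.map θ (b.coord (0, p ^ r, 0))) t
        = 0 := by
      refine vanish _ _ ?_
      intro s hs t
      rcases hs with rfl | rfl | rfl
      · induction t with
        | zero => simp
        | add a b ha hb => rw [add_mul, map_add, ha, hb, add_zero]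
        | tmul a c =>
          have := coord_x p r x y z hx hy hz hx0 hy0 hz0 b hb 0 (p ^ r) 0 1 (by norm_num) c
          rw [pow_one] at this
          simp only [Algebra.TensorProduct.tmul_mul_tmul, LinearMap.comp_apply,
            TensorProduct.map_tmul, this, LinearMap.mul'_apply, mul_zero]
      · induction t with
        | zero => simp
        | add a b ha hb => rw [add_mul, map_add, ha, hb, add_zero]
        | tmul a c =>
          have := coord_z p r x y z hx hy hz hx0 hy0 hz0 b hb 0 (p ^ r) 0 1 (by norm_num) c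
          rw [pow_one] at this
          simp only [Algebra.TensorProduct.tmul_mul_tmul, LinearMap.comp_apply,
            TensorProduct.map_tmul, this, LinearMap.mul'_apply, mul_zero]
      · induction t with
        | zero => simp
        | add a b ha hb => rw [add_mul, map_add, ha, hb, add_zero]
        | tmul a c =>
          have := coord_y p r x y z hx hy hz hx0 hy0 hz0 b hb 0 (p ^ r) 0 (p ^ r + 1)
            (by omega) c
          simp only [Algebra.TensorProduct.tmul_mul_tmul, LinearMap.comp_apply,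
            TensorProduct.map_tmul, this, LinearMap.mul'_apply, mul_zero]
    have hq1 : 1 ≤ p ^ r := Nat.one_le_pow _ _ (Fact.out : p.Prime).pos
    have hmk1 : Ideal.Quotient.mk L ((1 : B) ⊗ₜ[k] x) = 0 := Ideal.Quotient.eq_zero_iff_mem.2 hm1
    have hmk2 : Ideal.Quotient.mk L ((1 : B) ⊗ₜ[k] z) = 0 := Ideal.Quotient.eq_zero_iff_mem.2 hm2
    have hmk3 : (Ideal.Quotient.mk L ((1 : B) ⊗ₜ[k] y)) ^ (p ^ r + 1) = 0 := by
      rw [← map_pow, Algebra.TensorProduct.tmul_pow, one_pow]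
      exact Ideal.Quotient.eq_zero_iff_mem.2 hm3
    have hX : Ideal.Quotient.mk L (Bialgebra.comulAlgHom k B x) =
        Ideal.Quotient.mk L (x ⊗ₜ[k] 1) := by
      rw [Bialgebra.comulAlgHom_apply, hx, map_add, hmk1, add_zero]
    have hX' : Ideal.Quotient.mk L (Algebra.TensorProduct.comm k B B
        (Bialgebra.comulAlgHom k B x)) = Ideal.Quotient.mk L (x ⊗ₜ[k] 1) := by
      rw [Bialgebra.comulAlgHom_apply, hx, map_add, Algebra.TensorProduct.comm_tmul,
        Algebra.TensorProduct.comm_tmul, map_add, hmk1, zero_add]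
    have hY : Ideal.Quotient.mk L (Bialgebra.comulAlgHom k B y) =
        Ideal.Quotient.mk L (y ⊗ₜ[k] 1) + Ideal.Quotient.mk L (1 ⊗ₜ[k] y) := by
      rw [Bialgebra.comulAlgHom_apply, hy, map_add]
    have hY' : Ideal.Quotient.mk L (Algebra.TensorProduct.comm k B B
        (Bialgebra.comulAlgHom k B y)) =
        Ideal.Quotient.mk L (y ⊗ₜ[k] 1) + Ideal.Quotient.mk L (1 ⊗ₜ[k] y) := by
      rw [Bialgebra.comulAlgHom_apply, hy, map_add, Algebra.TensorProduct.comm_tmul,
        Algebra.TensorProduct.comm_tmul, map_add, add_comm]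
    have hZ : Ideal.Quotient.mk L (Bialgebra.comulAlgHom k B z) =
        Ideal.Quotient.mk L (z ⊗ₜ[k] 1) + Ideal.Quotient.mk L (x ⊗ₜ[k] 1) *
          Ideal.Quotient.mk L (1 ⊗ₜ[k] y) ^ (p ^ r) := by
      rw [Bialgebra.comulAlgHom_apply, hz, map_add, map_add, hmk2, add_zero, ← map_pow, ← map_mul,
        Algebra.TensorProduct.tmul_pow, one_pow, Algebra.TensorProduct.tmul_mul_tmul, mul_one,
        one_mul]
    have hZ' : Ideal.Quotient.mk L (Algebra.TensorProduct.comm k B B
        (Bialgebra.comulAlgHom k B z)) = Ideal.Quotient.mk L (z ⊗ₜ[k] 1) := by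
      have : (y ^ (p ^ r)) ⊗ₜ[k] x = ((y ^ (p ^ r)) ⊗ₜ[k] 1) * ((1 : B) ⊗ₜ[k] x) := by simp
      simp only [Bialgebra.comulAlgHom_apply, hz, map_add, Algebra.TensorProduct.comm_tmul]
      rw [hmk2, zero_add, this, map_mul, hmk1, mul_zero, add_zero]
    have hmk : Ideal.Quotient.mk L (Bialgebra.comulAlgHom k B (b (i, j, l)) -
        Algebra.TensorProduct.comm k B B (Bialgebra.comulAlgHom k B (b (i, j, l)))) =
        Ideal.Quotient.mk L ((D b (b (i, j, l))) ⊗ₜ[k] (y ^ (p ^ r))) := by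
      have hD : D b (b (i, j, l)) = (l : B) * (x ^ (i + 1) * y ^ j * z ^ (l - 1)) := by
        rw [D, Module.Basis.constr_basis, hb]
        simp only [Algebra.smul_def, map_natCast]
      have hD2 : ((l : B) * (x ^ (i + 1) * y ^ j * z ^ (l - 1))) ⊗ₜ[k] (y ^ (p ^ r)) =
          (l : B ⊗[k] B) * ((x ⊗ₜ[k] 1) ^ (i + 1) * (y ⊗ₜ[k] 1) ^ j * (z ⊗ₜ[k] 1) ^ (l - 1) *
            (1 ⊗ₜ[k] y) ^ (p ^ r)) := by
        have : (l : B ⊗[k] B) = (l : B) ⊗ₜ[k] 1 := by
          rw [← Algebra.TensorProduct.natCast_def]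
        rw [this]
        simp only [Algebra.TensorProduct.tmul_pow, one_pow, Algebra.TensorProduct.tmul_mul_tmul,
          mul_one, one_mul]
      rw [hD, hD2, hb]
      simp only [map_sub, map_mul, map_pow, hX, hX', hY, hY', hZ, hZ', map_natCast]
      rw [ring_aux1 _ _ _ _ hq1 hmk3]
      have h2 := ring_aux2 (Ideal.Quotient.mk L (y ⊗ₜ[k] 1)) _ _ hmk3 j
      linear_combination (Ideal.Quotient.mk L (x ⊗ₜ[k] 1)) ^ (i + 1) * (l : (B ⊗[k] B) ⧸ L) *
        (Ideal.Quotient.mk L (z ⊗ₜ[k] 1)) ^ (l - 1) * h2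
    have h1 := hvan _ (Ideal.Quotient.eq.1 hmk)
    rw [map_sub, map_sub, sub_eq_zero] at h1
    have h2 : ∀ t : B ⊗[k] B, (LinearMap.mul' k k ∘ₗ TensorProduct.map θ (b.coord (0, p ^ r, 0)))
        (Algebra.TensorProduct.comm k B B t) =
        (LinearMap.mul' k k ∘ₗ TensorProduct.map (b.coord (0, p ^ r, 0)) θ) t := by
      intro t
      induction t with
      | zero => simp
      | add a b ha hb => simp only [map_add, ha, hb]
      | tmul a b => simp [mul_comm]
    rw [h2] at h1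
    have h3 : (LinearMap.mul' k k ∘ₗ TensorProduct.map θ (b.coord (0, p ^ r, 0)))
        ((D b (b (i, j, l))) ⊗ₜ[k] (y ^ (p ^ r))) = θ (D b (b (i, j, l))) := by
      have : y ^ (p ^ r) = b (0, p ^ r, 0) := by rw [hb]; simp
      rw [this]
      simp
    rw [h3] at h1
    exact h1
  exact LinearMap.congr_fun hlin a

lemma counit_eq_coord : (counit (R := k) (A := B)) = b.coord (0, 0, 0) := by
  refine b.ext ?_
  rintro ⟨i, j, l⟩
  have h1 : counit (R := k) (b (i, j, l)) = 0 ^ i * 0 ^ j * 0 ^ l := by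
    have h2 : counit (R := k) (b (i, j, l)) = Bialgebra.counitAlgHom k B (b (i, j, l)) := rfl
    rw [h2, hb, map_mul, map_mul, map_pow, map_pow, map_pow, Bialgebra.counitAlgHom_apply,
      Bialgebra.counitAlgHom_apply, Bialgebra.counitAlgHom_apply, hx0, hy0, hz0]
  rw [h1]
  simp only [Module.Basis.coord_apply, Module.Basis.repr_self, Finsupp.single_apply,
    Prod.mk.injEq]
  rcases i with _ | i <;> rcases j with _ | j <;> rcases l with _ | l <;> simp

lemma le_ideal : frobeniusIdeal k B p r ≤ Ideal.span {x ^ (p ^ r), y ^ (p ^ r), z ^ (p ^ r)} := by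
  refine Ideal.span_le.2 ?_
  rintro _ ⟨a, ha, rfl⟩
  have ha2 : a ∈ Ideal.span {x, y, z} := by
    rw [← b.linearCombination_repr a, Finsupp.linearCombination_apply, Finsupp.sum]
    refine Ideal.sum_mem _ ?_
    rintro ⟨i, j, l⟩ hi
    have hne : (i, j, l) ≠ (0, 0, 0) := by
      intro h
      rw [h, Finsupp.mem_support_iff] at hi
      apply hi
      rw [counit_eq_coord p r x y z hx hy hz hx0 hy0 hz0 b hb] at ha
      exact ha
    rw [Algebra.smul_def]
    refine Ideal.mul_mem_left _ _ ?_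
    rw [hb]
    rcases i with _ | i
    · rcases j with _ | j
      · rcases l with _ | l
        · exact absurd rfl hne
        · rw [pow_succ, ← mul_assoc]
          exact Ideal.mul_mem_left _ _ (Ideal.subset_span (by simp))
      · rw [pow_succ]
        have : x ^ 0 * (y ^ j * y) * z ^ l = (x ^ 0 * y ^ j * z ^ l) * y := by ring
        rw [this]
        exact Ideal.mul_mem_left _ _ (Ideal.subset_span (by simp))
    · rw [pow_succ]
      have : x ^ i * x * y ^ j * z ^ l = (x ^ i * y ^ j * z ^ l) * x := by ring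
      rw [this]
      exact Ideal.mul_mem_left _ _ (Ideal.subset_span (by simp))
  refine Submodule.span_induction (p := fun a _ => a ^ (p ^ r) ∈
    Ideal.span {x ^ (p ^ r), y ^ (p ^ r), z ^ (p ^ r)}) ?_ ?_ ?_ ?_ ha2
  · rintro s (rfl | rfl | rfl)
    · exact Ideal.subset_span (by simp)
    · exact Ideal.subset_span (by simp)
    · exact Ideal.subset_span (by simp)
  · rw [zero_pow (pow_ne_zero _ (Fact.out : p.Prime).ne_zero)]
    exact Ideal.zero_mem _
  · intro a c _ _ ha hc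
    rw [add_pow_q (k := k)]
    exact Ideal.add_mem _ ha hc
  · intro c a _ ha
    rw [smul_eq_mul, mul_pow]
    exact Ideal.mul_mem_left _ _ ha

lemma D_mul_x (a : B) (n : ℕ) : D b (a * x ^ n) = D b a * x ^ n := by
  have : D b ∘ₗ LinearMap.mulRight k (x ^ n) = LinearMap.mulRight k (x ^ n) ∘ₗ D b := by
    refine b.ext ?_
    rintro ⟨i, j, l⟩
    simp only [LinearMap.comp_apply, LinearMap.mulRight_apply]
    rw [b_mul_x p r x y z hx hy hz hx0 hy0 hz0 b hb, D, Module.Basis.constr_basis,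
      Module.Basis.constr_basis, smul_mul_assoc, b_mul_x p r x y z hx hy hz hx0 hy0 hz0 b hb]
    congr 3
    ring
  exact LinearMap.congr_fun this a

lemma D_mul_y (a : B) (n : ℕ) : D b (a * y ^ n) = D b a * y ^ n := by
  have : D b ∘ₗ LinearMap.mulRight k (y ^ n) = LinearMap.mulRight k (y ^ n) ∘ₗ D b := by
    refine b.ext ?_
    rintro ⟨i, j, l⟩
    simp only [LinearMap.comp_apply, LinearMap.mulRight_apply]
    rw [b_mul_y p r x y z hx hy hz hx0 hy0 hz0 b hb, D, Module.Basis.constr_basis,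
      Module.Basis.constr_basis, smul_mul_assoc, b_mul_y p r x y z hx hy hz hx0 hy0 hz0 b hb]
  exact LinearMap.congr_fun this a

lemma D_mul_z (hr : r ≠ 0) (a : B) : D b (a * z ^ (p ^ r)) = D b a * z ^ (p ^ r) := by
  have : D b ∘ₗ LinearMap.mulRight k (z ^ (p ^ r)) = LinearMap.mulRight k (z ^ (p ^ r)) ∘ₗ D b := by
    refine b.ext ?_
    rintro ⟨i, j, l⟩
    simp only [LinearMap.comp_apply, LinearMap.mulRight_apply]
    rw [b_mul_z p r x y z hx hy hz hx0 hy0 hz0 b hb, D, Module.Basis.constr_basis,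
      Module.Basis.constr_basis, smul_mul_assoc, b_mul_z p r x y z hx hy hz hx0 hy0 hz0 b hb]
    have h1 : ((l + p ^ r : ℕ) : k) = (l : k) := by
      push_cast
      rw [CharP.cast_eq_zero k p, zero_pow hr, add_zero]
    simp only [h1]
    rcases l with _ | l
    · simp
    · congr 4
      omega
  exact LinearMap.congr_fun this a

/-- a functional of the form `θ ∘ D` vanishes on the ideal if `θ` vanishes on the products of
elements in the image of `D` with the generators -/
lemma comp_D_vanish (hr : r ≠ 0) (θ : B →ₗ[k] k) (h1 : ∀ a, θ (D b a * x ^ (p ^ r)) = 0)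
    (h2 : ∀ a, θ (D b a * y ^ (p ^ r)) = 0) (h3 : ∀ a, θ (D b a * z ^ (p ^ r)) = 0) :
    ∀ a ∈ frobeniusIdeal k B p r, θ (D b a) = 0 := by
  intro a ha
  have ha2 := le_ideal p r x y z hx hy hz hx0 hy0 hz0 b hb ha
  refine vanish (θ ∘ₗ D b) _ ?_ a ha2
  intro s hs t
  rcases hs with rfl | rfl | rfl
  · rw [LinearMap.comp_apply, D_mul_x p r x y z hx hy hz hx0 hy0 hz0 b hb]
    exact h1 t
  · rw [LinearMap.comp_apply, D_mul_y p r x y z hx hy hz hx0 hy0 hz0 b hb]
    exact h2 t
  · rw [LinearMap.comp_apply, D_mul_z p r x y z hx hy hz hx0 hy0 hz0 b hb hr]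
    exact h3 t

lemma coord_D (a : B) : b.coord (p ^ r, 0, 0) (D b a * x ^ (p ^ r)) = 0 := by
  have : b.coord (p ^ r, 0, 0) ∘ₗ LinearMap.mulRight k (x ^ (p ^ r)) ∘ₗ D b = 0 := by
    refine b.ext ?_
    rintro ⟨i, j, l⟩
    simp only [LinearMap.comp_apply, LinearMap.mulRight_apply]
    rw [D, Module.Basis.constr_basis, smul_mul_assoc, b_mul_x p r x y z hx hy hz hx0 hy0 hz0 b hb]
    simp
  exact LinearMap.congr_fun this a

theorem main (hr : r ≠ 0) {M : Type*} [AddCommGroup M] [Module k M] (ρ : M →ₗ[k] M ⊗[k] B)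
    {C : Type*} [CommRing C] [HopfAlgebra k C] (π' : B →ₐc[k] C) (hπ' : IsFrobeniusKernel p r π')
    (hρ : IsRational ρ) (φ : M ≃ₗ[k] C)
    (hφ : ∀ m, TensorProduct.map φ.toLinearMap (π' : B →ₗ[k] C) (ρ m) = comul (φ m)) : False := by
  set π : B →ₗ[k] C := (π' : B →ₗ[k] C) with hπ
  set lam : M →ₗ[k] k := (counit (R := k) (A := C)) ∘ₗ φ.toLinearMap
    with hlam
  have hmem : ∀ a : B, counit (R := k) a = 0 → π (a ^ (p ^ r)) = 0 := fun a ha =>
    (hπ'.2 _).2 (pow_mem_frobeniusIdeal a ha)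
  have hπmul : ∀ a c, π (a * c) = π a * π c := fun a c => map_mul π' a c
  -- the key property of `lam`
  have hlT : ∀ (θ : C →ₗ[k] k) (m : M), lam (T ρ (θ ∘ₗ π) m) =
      θ (φ m) := fun θ m => lam_T π' ρ φ hφ θ m
  have hex : ∀ μ : M →ₗ[k] k, ∃ θ : C →ₗ[k] k, ∀ m,
      lam (T ρ (θ ∘ₗ π) m) = μ m := by
    intro μ
    refine ⟨μ ∘ₗ φ.symm.toLinearMap, fun m => ?_⟩
    rw [hlT]
    simp
  set P : B →ₗ[k] k := b.coord (p ^ r, 0, 0) with hP
  set Q : B →ₗ[k] k := b.coord (0, p ^ r, 0) with hQ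
  obtain ⟨θ, hθ⟩ := hex (lam ∘ₗ T ρ P)
  obtain ⟨θ', hθ'⟩ := hex (lam ∘ₗ T ρ Q)
  set W := θ ∘ₗ π with hW
  set W' := θ' ∘ₗ π with hW'
  have hWy : ∀ a, W (a * y ^ (p ^ r)) = 0 := by
    intro a
    rw [hW, LinearMap.comp_apply, hπmul, hmem y hy0, mul_zero, map_zero]
  have hW'y : ∀ a, W' (a * y ^ (p ^ r)) = 0 := by
    intro a
    rw [hW', LinearMap.comp_apply, hπmul, hmem y hy0, mul_zero, map_zero]
  have hPy : ∀ a, P (a * y ^ (p ^ r)) = 0 := fun a =>
    coord_y p r x y z hx hy hz hx0 hy0 hz0 b hb _ _ _ _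
      (Nat.pow_pos (Fact.out : p.Prime).pos) a
  have e1 : ∀ m, lam (T ρ (conv P Q) m) = lam (T ρ (conv W Q) m) := by
    intro m
    rw [← T_T ρ hρ, ← T_T ρ hρ, hθ]
    rfl
  have e2 : ∀ m, lam (T ρ (conv Q P) m) = lam (T ρ (conv Q W) m) := by
    intro m
    have c1 : conv W' P = conv P W' :=
      conv_comm p r x y z hx hy hz hx0 hy0 hz0 b hb W' P hW'y hPy
    have c2 : conv W' W = conv W W' :=
      conv_comm p r x y z hx hy hz hx0 hy0 hz0 b hb W' W hW'y hWy
    calc lam (T ρ (conv Q P) m) = lam (T ρ Q (T ρ P m)) := by rw [T_T ρ hρ]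
      _ = lam (T ρ W' (T ρ P m)) := by rw [hθ']; rfl
      _ = lam (T ρ P (T ρ W' m)) := by rw [T_T ρ hρ, T_T ρ hρ, c1]
      _ = lam (T ρ W (T ρ W' m)) := by rw [hθ]; rfl
      _ = lam (T ρ W' (T ρ W m)) := by rw [T_T ρ hρ, T_T ρ hρ, c2]
      _ = lam (T ρ Q (T ρ W m)) := by rw [hθ']; rfl
      _ = lam (T ρ (conv Q W) m) := by rw [T_T ρ hρ]
  have d1 : ∀ a, conv P Q a - conv Q P a = P (D b a) :=
    conv_sub p r x y z hx hy hz hx0 hy0 hz0 b hb P
  have d2 : ∀ a, conv W Q a - conv Q W a = W (D b a) :=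
    conv_sub p r x y z hx hy hz hx0 hy0 hz0 b hb W
  set Z : B →ₗ[k] k := (P - W) ∘ₗ D b with hZdef
  have hZ : Z = conv P Q - conv Q P - (conv W Q - conv Q W) := by
    ext a
    simp only [hZdef, LinearMap.comp_apply, LinearMap.sub_apply, d1, d2]
  have hTsub : ∀ (θ η : B →ₗ[k] k) (m : M), T ρ (θ - η) m = T ρ θ m - T ρ η m := by
    intro θ η m
    simp only [T, LinearMap.comp_apply, LinearMap.lTensor_sub, LinearMap.sub_apply, map_sub]
  have hZ0 : ∀ m, lam (T ρ Z m) = 0 := by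
    intro m
    rw [hZ, hTsub, hTsub, hTsub, map_sub, map_sub, map_sub, e1, e2]
    ring
  have hZI : ∀ a ∈ frobeniusIdeal k B p r, Z a = 0 := by
    refine comp_D_vanish p r x y z hx hy hz hx0 hy0 hz0 b hb hr (P - W) ?_ ?_ ?_
    · intro a
      rw [LinearMap.sub_apply, hP, coord_D p r x y z hx hy hz hx0 hy0 hz0 b hb, hW,
        LinearMap.comp_apply, hπmul, hmem x hx0, mul_zero, map_zero, sub_zero]
    · intro a
      rw [LinearMap.sub_apply, hPy, hWy, sub_zero]
    · intro a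
      rw [LinearMap.sub_apply, hP, coord_z p r x y z hx hy hz hx0 hy0 hz0 b hb _ _ _ _
        (Nat.pow_pos (Fact.out : p.Prime).pos), hW,
        LinearMap.comp_apply, hπmul, hmem z hz0, mul_zero, map_zero, sub_zero]
  -- `Z` descends to the quotient
  have hsurj : Function.Surjective π := hπ'.1
  obtain ⟨Zb, hZb⟩ : ∃ Zb : C →ₗ[k] k, Zb ∘ₗ π = Z := by
    obtain ⟨s, hs⟩ := LinearMap.exists_rightInverse_of_surjective π (LinearMap.range_eq_top.2 hsurj)
    refine ⟨Z ∘ₗ s, ?_⟩
    ext a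
    have h1 : π (s (π a)) = π a := LinearMap.congr_fun hs (π a)
    have h2 : s (π a) - a ∈ frobeniusIdeal k B p r := by
      refine (hπ'.2 _).1 ?_
      have : π (s (π a) - a) = 0 := by rw [map_sub, h1, sub_self]
      exact this
    have h3 := hZI _ h2
    rw [map_sub, sub_eq_zero] at h3
    exact h3
  have hZb0 : ∀ m, Zb (φ m) = 0 := by
    intro m
    rw [← hlT, hZb, hZ0]
  have hZfin : ∀ a, Z a = 0 := by
    intro a
    rw [← hZb, LinearMap.comp_apply]
    have := hZb0 (φ.symm (π a))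
    rwa [LinearEquiv.apply_symm_apply] at this
  have hq : 1 ≤ p ^ r := Nat.one_le_pow _ _ (Fact.out : p.Prime).pos
  have hfin := hZfin (b (p ^ r - 1, 0, 1))
  rw [hZdef, LinearMap.comp_apply, D, Module.Basis.constr_basis] at hfin
  simp only [Nat.cast_one, one_smul, Nat.sub_self, Nat.sub_add_cancel hq] at hfin
  have hWx : W (b (p ^ r, 0, 0)) = 0 := by
    rw [hb, pow_zero, pow_zero, mul_one, mul_one, hW, LinearMap.comp_apply, hmem x hx0, map_zero]
  rw [LinearMap.sub_apply, hWx, sub_zero, hP] at hfin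
  simp at hfin

end main

end Pool.Agent.R725.Comod
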