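import Mathlib

set_option autoImplicit false

/-!
A lower bound for the dimension of a Frobenius parabolic subalgebra of `sl_n`.
-/

namespace Pool.Agent.R725.Minimal

open Matrix

section linalg

variable {K : Type*} [Field K] {V W : Type*} [AddCommGroup V] [Module K V]
  [FiniteDimensional K V] [AddCommGroup W] [Module K W]

theorem finite_bad (f g : V →ₗ[K] W) (hf : Function.Injective f) :
    {t : K | ¬ Function.Injective (f + t • g)}.Finite := by
  obtain ⟨l, hl⟩ := f.exists_leftInverse_of_injective (LinearMap.ker_eq_bot.2 hf)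
  refine Set.Finite.subset ((Module.End.finite_spectrum (K := K) (l ∘ₗ g)).image (fun μ => -μ⁻¹)) ?_
  intro t ht
  have ht' : LinearMap.ker (f + t • g) ≠ ⊥ := fun h => ht (LinearMap.ker_eq_bot.1 h)
  obtain ⟨v, hv, hv0⟩ := Submodule.exists_mem_ne_zero_of_ne_bot ht'
  rw [LinearMap.mem_ker, LinearMap.add_apply, LinearMap.smul_apply] at hv
  have h1 : v + t • l (g v) = 0 := by
    have h2 := congrArg l hv
    rw [map_add, map_smul, map_zero] at h2
    have h3 := LinearMap.congr_fun hl v
    simp only [LinearMap.comp_apply, LinearMap.id_apply] at h3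
    rwa [h3] at h2
  have ht0 : t ≠ 0 := by
    rintro rfl
    rw [zero_smul, add_zero] at h1
    exact hv0 h1
  refine ⟨-t⁻¹, ?_, by simp⟩
  apply Module.End.HasEigenvalue.mem_spectrum
  apply Module.End.hasEigenvalue_of_hasEigenvector (x := v)
  refine ⟨?_, hv0⟩
  rw [Module.End.mem_eigenspace_iff, LinearMap.comp_apply]
  have h2 : t • l (g v) = -v := by
    rw [eq_neg_iff_add_eq_zero, add_comm]
    exact h1
  calc l (g v) = t⁻¹ • (t • l (g v)) := by rw [smul_smul, inv_mul_cancel₀ ht0, one_smul]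
    _ = -t⁻¹ • v := by rw [h2, smul_neg, neg_smul]

theorem finite_bad' (f g : V →ₗ[K] W) (hg : Function.Injective g) :
    {t : K | ¬ Function.Injective (f + t • g)}.Finite := by
  obtain ⟨l, hl⟩ := g.exists_leftInverse_of_injective (LinearMap.ker_eq_bot.2 hg)
  refine Set.Finite.subset ((Module.End.finite_spectrum (K := K) (l ∘ₗ f)).image (fun μ => -μ)) ?_
  intro t ht
  have ht' : LinearMap.ker (f + t • g) ≠ ⊥ := fun h => ht (LinearMap.ker_eq_bot.1 h)
  obtain ⟨v, hv, hv0⟩ := Submodule.exists_mem_ne_zero_of_ne_bot ht'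
  rw [LinearMap.mem_ker, LinearMap.add_apply, LinearMap.smul_apply] at hv
  have h1 : l (f v) + t • v = 0 := by
    have h2 := congrArg l hv
    rw [map_add, map_smul, map_zero] at h2
    have h3 := LinearMap.congr_fun hl v
    simp only [LinearMap.comp_apply, LinearMap.id_apply] at h3
    rwa [h3] at h2
  refine ⟨-t, ?_, by simp⟩
  apply Module.End.HasEigenvalue.mem_spectrum
  apply Module.End.hasEigenvalue_of_hasEigenvector (x := v)
  refine ⟨?_, hv0⟩
  rw [Module.End.mem_eigenspace_iff, LinearMap.comp_apply, neg_smul, eq_neg_iff_add_eq_zero]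
  exact h1

omit [FiniteDimensional K V] in
theorem isotropic [FiniteDimensional K V] (B : V →ₗ[K] V →ₗ[K] K) (hB : Function.Injective B)
    (U : Submodule K V) (hU : ∀ w ∈ U, ∀ w' ∈ U, B w w' = 0) :
    2 * Module.finrank K U ≤ Module.finrank K V := by
  let φ : U →ₗ[K] U.dualAnnihilator :=
    LinearMap.codRestrict _ (B ∘ₗ U.subtype) (by
      intro w
      rw [Submodule.mem_dualAnnihilator]
      intro w' hw'
      exact hU w.1 w.2 w' hw')
  have hφ : Function.Injective φ := by
    intro a b hab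
    have := congrArg Subtype.val hab
    exact Subtype.ext (hB this)
  have h1 := LinearMap.finrank_le_finrank_of_injective hφ
  have h2 := Subspace.finrank_add_finrank_dualAnnihilator_eq U
  omega

end linalg

section supp

variable (K : Type*) [Field K] {n : ℕ}

/-- the matrices supported on the positions in `R` -/
def supp (R : Fin n → Fin n → Prop) : Submodule K (Matrix (Fin n) (Fin n) K) where
  carrier := {x | ∀ i j, ¬ R i j → x i j = 0}
  add_mem' := by
    intro a b ha hb i j h
    rw [Matrix.add_apply, ha i j h, hb i j h, add_zero]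
  zero_mem' := by
    intro i j _
    rfl
  smul_mem' := by
    intro c x hx i j h
    rw [Matrix.smul_apply, hx i j h, smul_zero]

variable {K}

theorem finrank_supp (R : Fin n → Fin n → Prop) [∀ i j, Decidable (R i j)] :
    Module.finrank K (supp K R) = Fintype.card {s : Fin n × Fin n // R s.1 s.2} := by
  let e : supp K R ≃ₗ[K] ({s : Fin n × Fin n // R s.1 s.2} → K) :=
    { toFun := fun x => fun s => x.1 s.1.1 s.1.2
      map_add' := fun x y => rfl
      map_smul' := fun c x => rfl
      invFun := fun f => ⟨Matrix.of fun i j => if h : R i j then f ⟨(i, j), h⟩ else 0, by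
        intro i j h
        simp only [of_apply]
        rw [dif_neg h]⟩
      left_inv := by
        intro x
        apply Subtype.ext
        ext i j
        simp only [of_apply]
        split_ifs with h
        · rfl
        · exact (x.2 i j h).symm
      right_inv := by
        intro f
        funext s
        simp only [of_apply]
        rw [dif_pos s.2] }
  rw [e.finrank_eq, Module.finrank_pi]

/-- the bilinear form `ξ([x, y])` -/
noncomputable def brForm (ξ : Module.Dual K (Matrix (Fin n) (Fin n) K)) :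
    Matrix (Fin n) (Fin n) K →ₗ[K] Matrix (Fin n) (Fin n) K →ₗ[K] K :=
  LinearMap.mk₂ K (fun x y => ξ (x * y - y * x))
    (by intro x x' y; rw [← map_add]; congr 1; noncomm_ring)
    (by
      intro c x y
      rw [smul_mul_assoc, mul_smul_comm, ← smul_sub, map_smul])
    (by intro x y y'; rw [← map_add]; congr 1; noncomm_ring)
    (by
      intro c x y
      rw [smul_mul_assoc, mul_smul_comm, ← smul_sub, map_smul])

theorem brForm_apply (ξ : Module.Dual K (Matrix (Fin n) (Fin n) K))
    (x y : Matrix (Fin n) (Fin n) K) : brForm ξ x y = ξ (x * y - y * x) := rfl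

theorem brForm_add (ξ η : Module.Dual K (Matrix (Fin n) (Fin n) K)) (t : K) :
    brForm (ξ + t • η) = brForm ξ + t • brForm η := by
  ext x y
  rfl

end supp

section main

variable {K : Type*} [Field K] {n : ℕ}

/-- positions of the abelian ideal -/
def RU (i j : Fin n) : Prop := i.1 < n / 2 ∧ n / 2 ≤ j.1
/-- positions of the diagonal blocks -/
def RD (i j : Fin n) : Prop := i.1 ≤ j.1 ∧ ¬ (i.1 < n / 2 ∧ n / 2 ≤ j.1)
/-- without the diagonal of the second block -/
def RD0 (i j : Fin n) : Prop := i.1 ≤ j.1 ∧ ¬ (i.1 < n / 2 ∧ n / 2 ≤ j.1) ∧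
  ¬ (n / 2 ≤ i.1 ∧ i = j)

instance (i j : Fin n) : Decidable (RU i j) := by unfold RU; infer_instance
instance (i j : Fin n) : Decidable (RD i j) := by unfold RD; infer_instance
instance (i j : Fin n) : Decidable (RD0 i j) := by unfold RD0; infer_instance

/-- the antidiagonal element -/
def e1 (K : Type*) [Field K] (n : ℕ) : Matrix (Fin n) (Fin n) K :=
  Matrix.of fun i j => if j.1 < n / 2 ∧ i.1 + j.1 + 1 = n then 1 else 0

/-- its linear functional -/
noncomputable def η1 (K : Type*) [Field K] (n : ℕ) : Module.Dual K (Matrix (Fin n) (Fin n) K) :=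
  (Matrix.traceLinearMap (Fin n) K K) ∘ₗ LinearMap.mulLeft K (e1 K n)

theorem η1_apply (x : Matrix (Fin n) (Fin n) K) : η1 K n x = (e1 K n * x).trace := rfl

/-- injectivity for the special functional -/
theorem inj1 (x : Matrix (Fin n) (Fin n) K) (hx : x ∈ supp K RD0)
    (h : ∀ u ∈ supp K (RU (n := n)), brForm (η1 K n) x u = 0) : x = 0 := by
  have key : ∀ i j : Fin n, (hj : j.1 < n / 2) → n / 2 ≤ i.1 →
      x i ⟨n - 1 - j.1, by omega⟩ =
        if h' : n - 1 - i.1 < n / 2 then x ⟨n - 1 - i.1, by omega⟩ j else 0 := by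
    intro i j hj hi
    have h1 := h (single j i 1) (by
      intro a b hab
      rw [single_apply, if_neg]
      rintro ⟨rfl, rfl⟩
      exact hab ⟨hj, hi⟩)
    rw [brForm_apply, η1_apply] at h1
    have h2 : (e1 K n * (x * single j i 1 - single j i 1 * x)).trace =
        ((e1 K n * x - x * e1 K n) * single j i 1).trace := by
      rw [mul_sub, sub_mul, trace_sub, trace_sub, mul_assoc (e1 K n) x, mul_assoc x (e1 K n),
        trace_mul_comm x, mul_assoc (e1 K n)]
    rw [h2, trace_mul_single, MulOpposite.op_one, one_smul, Matrix.sub_apply, sub_eq_zero] at h1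
    have h3 : (x * e1 K n) i j = x i ⟨n - 1 - j.1, by omega⟩ := by
      rw [mul_apply, Finset.sum_eq_single ⟨n - 1 - j.1, by omega⟩]
      · simp only [e1, of_apply]
        rw [if_pos ⟨hj, by omega⟩, mul_one]
      · intro a _ ha
        simp only [e1, of_apply]
        rw [if_neg, mul_zero]
        rintro ⟨h4, h5⟩
        apply ha
        apply Fin.ext
        simp only
        omega
      · intro h'
        exact absurd (Finset.mem_univ _) h'
    have h4 : (e1 K n * x) i j =
        if h' : n - 1 - i.1 < n / 2 then x ⟨n - 1 - i.1, by omega⟩ j else 0 := by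
      rw [mul_apply]
      split_ifs with h'
      · rw [Finset.sum_eq_single ⟨n - 1 - i.1, by omega⟩]
        · simp only [e1, of_apply]
          rw [if_pos ⟨h', by omega⟩, one_mul]
        · intro a _ ha
          simp only [e1, of_apply]
          rw [if_neg, zero_mul]
          rintro ⟨h4, h5⟩
          apply ha
          apply Fin.ext
          simp only
          omega
        · intro h'
          exact absurd (Finset.mem_univ _) h'
      · apply Finset.sum_eq_zero
        intro a _
        simp only [e1, of_apply]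
        rw [if_neg, zero_mul]
        rintro ⟨h4, h5⟩
        omega
    rw [← h3, ← h4, h1]
  ext a b
  rw [Matrix.zero_apply]
  by_cases hab : RD0 a b
  · obtain ⟨h1, h2, h3⟩ := hab
    by_cases ha : n / 2 ≤ a.1
    · -- second block, strictly upper entry
      have hlt : a.1 < b.1 := by
        rcases Nat.lt_or_ge a.1 b.1 with h | h
        · exact h
        · exact absurd ⟨ha, Fin.ext (by omega)⟩ h3
      have h4 := key a ⟨n - 1 - b.1, by omega⟩ (by simp only; omega) ha
      have e1 : (⟨n - 1 - (⟨n - 1 - b.1, by omega⟩ : Fin n).1, by omega⟩ : Fin n) = b := by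
        apply Fin.ext
        simp only
        omega
      rw [e1] at h4
      rw [h4]
      split_ifs with h5
      · apply hx
        intro h6
        have := h6.1
        simp only at this
        omega
      · rfl
    · push Not at ha
      have hb : b.1 < n / 2 := by omega
      have h4 := key ⟨n - 1 - a.1, by omega⟩ b hb (by simp only; omega)
      rw [dif_pos (by simp only; omega)] at h4
      have e1 : (⟨n - 1 - (⟨n - 1 - a.1, by omega⟩ : Fin n).1, by omega⟩ : Fin n) = a := by
        apply Fin.ext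
        simp only
        omega
      rw [e1] at h4
      rw [← h4]
      apply hx
      rintro ⟨h5, h6, h7⟩
      simp only at h5
      have hab : a.1 = b.1 := by omega
      apply h7
      refine ⟨by simp only; omega, ?_⟩
      apply Fin.ext
      simp only
      omega
  · exact hx a b hab

theorem UU (u v : Matrix (Fin n) (Fin n) K) (hu : u ∈ supp K RU) (hv : v ∈ supp K RU) :
    u * v = 0 := by
  ext i j
  rw [mul_apply, Matrix.zero_apply]
  apply Finset.sum_eq_zero
  intro a _
  by_cases h : RU i a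
  · rw [hv a j (by intro h'; exact absurd h'.1 (by have := h.2; omega)), mul_zero]
  · rw [hu i a h, zero_mul]

theorem DU (s u : Matrix (Fin n) (Fin n) K) (hs : s ∈ supp K RD) (hu : u ∈ supp K RU) :
    s * u ∈ supp K (RU (n := n)) := by
  intro i j h
  rw [mul_apply]
  apply Finset.sum_eq_zero
  intro a _
  by_cases h1 : RD i a
  · rw [hu a j (by
      intro h'
      apply h
      exact ⟨lt_of_le_of_lt h1.1 h'.1, h'.2⟩), mul_zero]
  · rw [hs i a h1, zero_mul]

theorem UD (s u : Matrix (Fin n) (Fin n) K) (hs : s ∈ supp K RD) (hu : u ∈ supp K RU) :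
    u * s ∈ supp K (RU (n := n)) := by
  intro i j h
  rw [mul_apply]
  apply Finset.sum_eq_zero
  intro a _
  by_cases h1 : RU i a
  · rw [hs a j (by
      intro h'
      apply h
      exact ⟨h1.1, le_trans h1.2 h'.1⟩), mul_zero]
  · rw [hu i a h1, zero_mul]

theorem DD (s t : Matrix (Fin n) (Fin n) K) (hs : s ∈ supp K RD) (ht : t ∈ supp K RD) :
    s * t ∈ supp K (RD (n := n)) := by
  intro i j h
  rw [mul_apply]
  apply Finset.sum_eq_zero
  intro a _
  by_cases h1 : RD i a
  · rw [ht a j (by
      intro h'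
      apply h
      refine ⟨le_trans h1.1 h'.1, ?_⟩
      rintro ⟨h2, h3⟩
      rcases Nat.lt_or_ge a.1 (n / 2) with h4 | h4
      · exact h'.2 ⟨h4, h3⟩
      · exact h1.2 ⟨h2, h4⟩), mul_zero]
  · rw [hs i a h1, zero_mul]

theorem diag_mul (s t : Matrix (Fin n) (Fin n) K) (hs : s ∈ supp K RD) (ht : t ∈ supp K RD)
    (i : Fin n) : (s * t) i i = s i i * t i i := by
  rw [mul_apply, Finset.sum_eq_single i]
  · intro a _ ha
    rcases lt_or_gt_of_ne (fun h => ha (Fin.ext h) : a.1 ≠ i.1) with h | h
    · rw [hs i a (by intro h'; exact absurd h'.1 (by omega)), zero_mul]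
    · rw [ht a i (by intro h'; exact absurd h'.1 (by omega)), mul_zero]
  · intro h
    exact absurd (Finset.mem_univ _) h

theorem DD_comm (s t : Matrix (Fin n) (Fin n) K) (hs : s ∈ supp K RD) (ht : t ∈ supp K RD) :
    s * t - t * s ∈ supp K (RD0 (n := n)) := by
  intro i j h
  by_cases h1 : RD i j
  · have h2 : i = j := by
      by_contra hne
      exact h ⟨h1.1, h1.2, fun h' => hne h'.2⟩
    subst h2
    rw [Matrix.sub_apply, diag_mul s t hs ht, diag_mul t s ht hs, mul_comm, sub_self]
  · exact (supp K RD).sub_mem (DD s t hs ht) (DD t s ht hs) i j h1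


theorem finrank_le_inf_ker (A : Submodule K (Matrix (Fin n) (Fin n) K)) :
    Module.finrank K A ≤
      Module.finrank K (A ⊓ LinearMap.ker (Matrix.traceLinearMap (Fin n) K K) :
        Submodule K (Matrix (Fin n) (Fin n) K)) + 1 := by
  have h1 := Submodule.finrank_sup_add_finrank_inf_eq A
    (LinearMap.ker (Matrix.traceLinearMap (Fin n) K K))
  have h2 := LinearMap.finrank_range_add_finrank_ker (Matrix.traceLinearMap (Fin n) K K)
  have h3 : Module.finrank K (LinearMap.range (Matrix.traceLinearMap (Fin n) K K)) ≤ 1 := by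
    have := Submodule.finrank_le (LinearMap.range (Matrix.traceLinearMap (Fin n) K K))
    rwa [Module.finrank_self] at this
  have h4 := Submodule.finrank_le (A ⊔ LinearMap.ker (Matrix.traceLinearMap (Fin n) K K))
  omega

theorem minimal [CharZero K] (𝔮 : Submodule K (Matrix (Fin n) (Fin n) K)) (g : GL (Fin n) K)
    (hg : ∀ x : Matrix (Fin n) (Fin n) K, x.trace = 0 → (∀ i j, j < i → x i j = 0) →
      (g : Matrix (Fin n) (Fin n) K) * x * (g⁻¹ : GL (Fin n) K) ∈ 𝔮)
    (ξ : Module.Dual K (Matrix (Fin n) (Fin n) K))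
    (hξ : ∀ x ∈ 𝔮, (∀ y ∈ 𝔮, ξ (x * y - y * x) = 0) → x = 0) :
    2 * Fintype.card {s : Fin n × Fin n // RD s.1 s.2} ≤ Module.finrank K 𝔮 + 2 := by
  have hgg : ((g⁻¹ : GL (Fin n) K) : Matrix (Fin n) (Fin n) K) * g = 1 := by
    rw [← Units.val_mul, inv_mul_cancel, Units.val_one]
  have hgg' : (g : Matrix (Fin n) (Fin n) K) * (g⁻¹ : GL (Fin n) K) = 1 := by
    rw [← Units.val_mul, mul_inv_cancel, Units.val_one]
  let cj : Matrix (Fin n) (Fin n) K →ₗ[K] Matrix (Fin n) (Fin n) K :=
    LinearMap.mulRight K ((g⁻¹ : GL (Fin n) K) : Matrix (Fin n) (Fin n) K) ∘ₗ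
      LinearMap.mulLeft K (g : Matrix (Fin n) (Fin n) K)
  let cj' : Matrix (Fin n) (Fin n) K →ₗ[K] Matrix (Fin n) (Fin n) K :=
    LinearMap.mulRight K (g : Matrix (Fin n) (Fin n) K) ∘ₗ
      LinearMap.mulLeft K ((g⁻¹ : GL (Fin n) K) : Matrix (Fin n) (Fin n) K)
  have hcj : ∀ x, cj x = (g : Matrix (Fin n) (Fin n) K) * x * (g⁻¹ : GL (Fin n) K) := fun x => rfl
  have hcj' : ∀ x, cj' (cj x) = x := by
    intro x
    change ((g⁻¹ : GL (Fin n) K) : Matrix (Fin n) (Fin n) K) * (g * x * (g⁻¹ : GL (Fin n) K)) * g = x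
    rw [mul_assoc, mul_assoc (g * x : Matrix (Fin n) (Fin n) K), hgg, mul_one, ← mul_assoc, hgg,
      one_mul]
  have hcjmul : ∀ x y, cj x * cj y - cj y * cj x = cj (x * y - y * x) := by
    intro x y
    rw [map_sub, hcj, hcj, hcj, hcj]
    have e : ∀ a b : Matrix (Fin n) (Fin n) K, (g : Matrix (Fin n) (Fin n) K) * a *
        (g⁻¹ : GL (Fin n) K) * (g * b * (g⁻¹ : GL (Fin n) K)) =
        g * (a * b) * (g⁻¹ : GL (Fin n) K) := by
      intro a b
      calc (g : Matrix (Fin n) (Fin n) K) * a * (g⁻¹ : GL (Fin n) K) *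
            (g * b * (g⁻¹ : GL (Fin n) K))
          = g * a * (((g⁻¹ : GL (Fin n) K) : Matrix (Fin n) (Fin n) K) * g) * b *
            (g⁻¹ : GL (Fin n) K) := by noncomm_ring
        _ = g * (a * b) * (g⁻¹ : GL (Fin n) K) := by rw [hgg]; noncomm_ring
    rw [e, e]
  let ξ1 : Module.Dual K (Matrix (Fin n) (Fin n) K) := η1 K n ∘ₗ cj'
  -- choice of the parameter
  have hinj0 : Function.Injective ((brForm ξ).domRestrict₁₂ 𝔮 𝔮) := by
    rw [← LinearMap.ker_eq_bot, eq_bot_iff]
    intro x hx
    rw [LinearMap.mem_ker] at hx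
    rw [Submodule.mem_bot]
    apply Subtype.ext
    apply hξ x.1 x.2
    intro y hy
    exact LinearMap.congr_fun hx ⟨y, hy⟩
  have hinj1 : Function.Injective ((brForm (η1 K n)).domRestrict₁₂ (supp K (RD0 (n := n)))
      (supp K (RU (n := n)))) := by
    rw [← LinearMap.ker_eq_bot, eq_bot_iff]
    intro x hx
    rw [LinearMap.mem_ker] at hx
    rw [Submodule.mem_bot]
    apply Subtype.ext
    apply inj1 x.1 x.2
    intro y hy
    exact LinearMap.congr_fun hx ⟨y, hy⟩
  have hfin := (finite_bad _ ((brForm ξ1).domRestrict₁₂ 𝔮 𝔮) hinj0).union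
    (finite_bad' ((brForm (ξ ∘ₗ cj)).domRestrict₁₂ (supp K (RD0 (n := n)))
      (supp K (RU (n := n)))) _ hinj1)
  obtain ⟨t, ht⟩ := hfin.infinite_compl.nonempty
  simp only [Set.compl_union, Set.mem_inter_iff, Set.mem_compl_iff, Set.mem_ofPred_eq,
    not_not] at ht
  obtain ⟨ht1, ht2⟩ := ht
  let ξt := ξ + t • ξ1
  let ηt := ξt ∘ₗ cj
  have hηt : ηt = ξ ∘ₗ cj + t • η1 K n := by
    apply LinearMap.ext
    intro x
    change ξ (cj x) + t • η1 K n (cj' (cj x)) = ξ (cj x) + t • η1 K n x
    rw [hcj']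
  let T := (brForm ηt).domRestrict₁₂ (supp K (RD (n := n))) (supp K (RU (n := n)))
  let 𝔰 := (LinearMap.ker T).map (supp K (RD (n := n))).subtype
  have h𝔰 : ∀ s ∈ 𝔰, s ∈ supp K (RD (n := n)) ∧ ∀ u ∈ supp K (RU (n := n)),
      ηt (s * u - u * s) = 0 := by
    rintro _ ⟨s, hs, rfl⟩
    refine ⟨s.2, ?_⟩
    intro u hu
    exact LinearMap.congr_fun (LinearMap.mem_ker.1 hs) ⟨u, hu⟩
  have hcomm : ∀ s ∈ 𝔰, ∀ s' ∈ 𝔰, s * s' - s' * s = 0 := by
    intro s hs s' hs'
    obtain ⟨h1, h2⟩ := h𝔰 s hs
    obtain ⟨h1', h2'⟩ := h𝔰 s' hs'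
    have h3 : (⟨s * s' - s' * s, DD_comm s s' h1 h1'⟩ : supp K (RD0 (n := n))) = 0 := by
      apply ht2
      rw [map_zero]
      apply LinearMap.ext
      intro u
      change ξ (cj ((s * s' - s' * s) * u.1 - u.1 * (s * s' - s' * s))) +
        t • η1 K n ((s * s' - s' * s) * u.1 - u.1 * (s * s' - s' * s)) = 0
      have e : (s * s' - s' * s) * u.1 - u.1 * (s * s' - s' * s) =
        (s * (s' * u.1 - u.1 * s') - (s' * u.1 - u.1 * s') * s) -
        (s' * (s * u.1 - u.1 * s) - (s * u.1 - u.1 * s) * s') := by noncomm_ring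
      have e2 : ηt ((s * s' - s' * s) * u.1 - u.1 * (s * s' - s' * s)) = 0 := by
        rw [e, map_sub, h2 _ ((supp K RU).sub_mem (DU s' u.1 h1' u.2) (UD s' u.1 h1' u.2)),
          h2' _ ((supp K RU).sub_mem (DU s u.1 h1 u.2) (UD s u.1 h1 u.2)), sub_zero]
      rw [hηt] at e2
      exact e2
    exact congrArg Subtype.val h3
  let W := (supp K (RU (n := n)) ⊔ 𝔰) ⊓ LinearMap.ker (Matrix.traceLinearMap (Fin n) K K)
  have hWtri : ∀ w ∈ W, ∀ i j : Fin n, j < i → w i j = 0 := by
    rintro w ⟨hw, -⟩ i j hij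
    obtain ⟨u, hu, s, hs, rfl⟩ := Submodule.mem_sup.1 hw
    rw [Matrix.add_apply, hu i j (by intro h; have := h.1; have := h.2; omega),
      (h𝔰 s hs).1 i j (by intro h; have := h.1; omega), add_zero]
  have hWiso : ∀ w ∈ W, ∀ w' ∈ W, ξt (cj w * cj w' - cj w' * cj w) = 0 := by
    rintro w ⟨hw, -⟩ w' ⟨hw', -⟩
    obtain ⟨u, hu, s, hs, rfl⟩ := Submodule.mem_sup.1 hw
    obtain ⟨u', hu', s', hs', rfl⟩ := Submodule.mem_sup.1 hw'
    rw [hcjmul]
    change ηt _ = 0
    have e : (u + s) * (u' + s') - (u' + s') * (u + s) = (u * u' - u' * u) +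
      (s * u' - u' * s) - (s' * u - u * s') + (s * s' - s' * s) := by noncomm_ring
    rw [e, UU u u' hu hu', UU u' u hu' hu, hcomm s hs s' hs', map_add, map_sub, map_add,
      (h𝔰 s hs).2 u' hu', (h𝔰 s' hs').2 u hu]
    simp
  have hWq : W.map cj ≤ 𝔮 := by
    rintro _ ⟨w, hw, rfl⟩
    exact hg w hw.2 (hWtri w hw)
  have hfW : Module.finrank K ((W.map cj).comap 𝔮.subtype) = Module.finrank K W := by
    rw [(Submodule.comapSubtypeEquivOfLe hWq).finrank_eq]
    exact (Submodule.equivMapOfInjective cj (Function.LeftInverse.injective hcj') W).finrank_eq.symm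
  have h1 := isotropic ((brForm ξt).domRestrict₁₂ 𝔮 𝔮) ht1 ((W.map cj).comap 𝔮.subtype) (by
    rintro ⟨x, hx⟩ hx' ⟨y, hy⟩ hy'
    obtain ⟨w, hw, hwx⟩ := hx'
    obtain ⟨w', hw', hwy⟩ := hy'
    change ξt (x * y - y * x) = 0
    have e1 : cj w = x := hwx
    have e2 : cj w' = y := hwy
    rw [← e1, ← e2]
    exact hWiso w hw w' hw')
  rw [hfW] at h1
  have h2 : Module.finrank K (supp K (RU (n := n)) ⊔ 𝔰 : Submodule K (Matrix (Fin n) (Fin n) K)) ≤
      Module.finrank K W + 1 := finrank_le_inf_ker (supp K (RU (n := n)) ⊔ 𝔰)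
  have h3 := Submodule.finrank_sup_add_finrank_inf_eq (supp K (RU (n := n))) 𝔰
  have h4 : supp K (RU (n := n)) ⊓ 𝔰 = ⊥ := by
    rw [eq_bot_iff]
    rintro x ⟨hx, hx'⟩
    rw [Submodule.mem_bot]
    ext i j
    rw [Matrix.zero_apply]
    by_cases h : RU i j
    · exact (h𝔰 x hx').1 i j (fun h' => h'.2 h)
    · exact hx i j h
  rw [h4, finrank_bot, add_zero] at h3
  have h5 : Module.finrank K 𝔰 = Module.finrank K (LinearMap.ker T) :=
    Submodule.finrank_map_subtype_eq _ _
  have h6 := LinearMap.finrank_range_add_finrank_ker T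
  have h7 : Module.finrank K (LinearMap.range T) ≤ Module.finrank K (supp K (RU (n := n))) := by
    have := Submodule.finrank_le (LinearMap.range T)
    rwa [Subspace.dual_finrank_eq] at this
  have h8 := finrank_supp (K := K) (RD (n := n))
  omega

end main

end Pool.Agent.R725.Minimal
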