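import Pool.Agent.R725.Par
import Pool.Agent.R725.Minimal

set_option autoImplicit false

/-!
Counting the positions of the parabolic subalgebra.
-/

namespace Pool.Agent.R725.Count

open Finset Pool.Agent.R725.Par Pool.Agent.R725.Minimal

theorem card_pairs {n : ℕ} (R : Fin n → Fin n → Prop) [∀ i j, Decidable (R i j)] :
    Fintype.card {s : Fin n × Fin n // R s.1 s.2} =
      ∑ i : Fin n, ∑ j : Fin n, if R i j then 1 else 0 := by
  rw [Fintype.card_subtype, Finset.card_filter, Fintype.sum_prod_type]

theorem sum_Ico (n a c : ℕ) (hc : c ≤ n) :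
    ∑ j : Fin n, (if a ≤ j.1 ∧ j.1 < c then 1 else 0) = c - a := by
  rw [Fin.sum_univ_eq_sum_range (fun j => if a ≤ j ∧ j < c then 1 else 0) n,
    ← Finset.card_filter]
  have : (Finset.range n).filter (fun j => a ≤ j ∧ j < c) = Finset.Ico a c := by
    ext j
    simp only [Finset.mem_filter, Finset.mem_range, Finset.mem_Ico]
    omega
  rw [this, Nat.card_Ico]

/-- 1 if the next index is in the same block -/
def f (n i : ℕ) : ℕ :=
  if n % 2 = 1 then i % 2 else if 2 * i < n then (if i % 2 = 1 ∧ 2 * (i + 1) < n then 1 else 0)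
    else (if i % 2 = 0 then 1 else 0)

/-- its partial sums -/
def g (n t : ℕ) : ℕ :=
  if n % 2 = 1 then t / 2 else if 2 * t ≤ n then min (t / 2) ((n / 2 - 1) / 2)
    else (n / 2 - 1) / 2 + ((t + 1) / 2 - (n / 2 + 1) / 2)

theorem sum_f (n t : ℕ) (hn : 3 ≤ n) (ht : t ≤ n) : ∑ i ∈ range t, f n i = g n t := by
  induction t with
  | zero =>
    unfold g
    split_ifs <;> simp
  | succ t ih =>
    rw [Finset.sum_range_succ, ih (by omega)]
    unfold f g
    split_ifs <;> omega

theorem gauss (t : ℕ) : 2 * ∑ i ∈ range t, (i + 1) = t * (t + 1) := by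
  induction t with
  | zero => simp
  | succ t ih =>
    rw [Finset.sum_range_succ, mul_add, ih]
    ring

theorem card_S (n : ℕ) (hn : 3 ≤ n) :
    2 * Fintype.card {s : Fin n × Fin n // bl n s.2 ≤ bl n s.1} =
      n * (n + 1) + 2 * ((n - 1) / 2) := by
  rw [card_pairs (fun i j : Fin n => bl n j ≤ bl n i)]
  have h1 : ∀ i : Fin n, (∑ j : Fin n, if bl n j ≤ bl n i then 1 else 0) = i.1 + 1 + f n i := by
    intro i
    have hi := i.2
    have hle : i.1 + 1 + f n i ≤ n := by
      unfold f
      split_ifs <;> omega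
    rw [← Nat.sub_zero (i.1 + 1 + f n i), ← sum_Ico n 0 (i.1 + 1 + f n i) hle]
    apply Finset.sum_congr rfl
    intro j _
    have hj := j.2
    apply if_congr _ rfl rfl
    unfold bl f
    split_ifs <;> omega
  rw [Finset.sum_congr rfl (fun i _ => h1 i),
    Fin.sum_univ_eq_sum_range (fun i => i + 1 + f n i) n, Finset.sum_add_distrib, mul_add, gauss,
    sum_f n n hn le_rfl]
  congr 2
  unfold g
  split_ifs <;> omega

theorem sum_D (n m : ℕ) (t : ℕ) (hm : m ≤ n) (ht : t ≤ n) :
    2 * ∑ i ∈ range t, ((if i < m then (m : ℤ) - i else n - i) : ℤ) =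
      if t ≤ m then (t : ℤ) * (2 * m - t + 1)
        else m * (m + 1) + (t - m) * (2 * n - m - t + 1) := by
  induction t with
  | zero => simp
  | succ t ih =>
    rw [Finset.sum_range_succ, mul_add, ih (by omega)]
    by_cases h1 : t + 1 ≤ m
    · rw [if_pos (by omega), if_pos (by omega), if_pos h1]
      push_cast
      ring
    · by_cases h2 : t ≤ m
      · have : t = m := by omega
        subst this
        rw [if_pos le_rfl, if_neg (by omega), if_neg h1]
        push_cast
        ring
      · rw [if_neg h2, if_neg (by omega), if_neg h1]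
        push_cast
        ring

theorem card_RD (n : ℕ) :
    2 * Fintype.card {s : Fin n × Fin n // RD s.1 s.2} =
      (n / 2) * (n / 2 + 1) + (n - n / 2) * (n - n / 2 + 1) := by
  rw [card_pairs (fun i j : Fin n => RD i j)]
  have h1 : ∀ i : Fin n, (∑ j : Fin n, if RD i j then 1 else 0) =
      (if i.1 < n / 2 then n / 2 - i.1 else n - i.1) := by
    intro i
    have hi := i.2
    split_ifs with h
    · rw [← sum_Ico n i.1 (n / 2) (by omega)]
      apply Finset.sum_congr rfl
      intro j _
      apply if_congr _ rfl rfl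
      unfold RD
      omega
    · rw [← sum_Ico n i.1 n le_rfl]
      apply Finset.sum_congr rfl
      intro j _
      have hj := j.2
      apply if_congr _ rfl rfl
      unfold RD
      omega
  rw [Finset.sum_congr rfl (fun i _ => h1 i),
    Fin.sum_univ_eq_sum_range (fun i => if i < n / 2 then n / 2 - i else n - i) n]
  have h2 := sum_D n (n / 2) n (by omega) le_rfl
  have h3 : ((∑ i ∈ range n, (if i < n / 2 then n / 2 - i else n - i) : ℕ) : ℤ) =
      ∑ i ∈ range n, ((if i < n / 2 then ((n / 2 : ℕ) : ℤ) - i else n - i) : ℤ) := by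
    rw [Nat.cast_sum]
    apply Finset.sum_congr rfl
    intro i hi
    rw [Finset.mem_range] at hi
    split_ifs with h
    · rw [Nat.cast_sub (by omega)]
    · rw [Nat.cast_sub (by omega)]
  rw [← h3] at h2
  generalize (∑ i ∈ range n, (if i < n / 2 then n / 2 - i else n - i) : ℕ) = s at h2 ⊢
  by_cases hn : n ≤ n / 2
  · have : n = 0 := by omega
    subst this
    simp at h2
    subst h2
    simp
  · rw [if_neg hn] at h2
    obtain ⟨m, hm⟩ : ∃ m, n / 2 = m := ⟨_, rfl⟩
    obtain ⟨l, hl⟩ : ∃ l, n - n / 2 = l := ⟨_, rfl⟩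
    have hnl : n = m + l := by omega
    rw [hl]
    rw [hm] at h2 ⊢
    rw [hnl] at h2
    push_cast at h2
    have h5 : (2 * (s : ℤ)) = m * (m + 1) + l * (l + 1) := by
      rw [h2]
      ring
    exact_mod_cast h5

/-- the dimension of the parabolic subalgebra of `sl_n` is the smallest possible one -/
theorem card_le (n : ℕ) (hn : 3 ≤ n) :
    Fintype.card {s : Fin n × Fin n // bl n s.2 ≤ bl n s.1} + 1 =
      2 * Fintype.card {s : Fin n × Fin n // RD s.1 s.2} := by
  have h1 := card_S n hn
  have h2 := card_RD n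
  rcases Nat.even_or_odd' n with ⟨m, hm | hm⟩
  · have e1 : n / 2 = m := by omega
    have e2 : n - n / 2 = m := by omega
    have e3 : (n - 1) / 2 = m - 1 := by omega
    rw [e1] at h2
    rw [e3] at h1
    rw [show n - m = m by omega] at h2
    obtain ⟨l, hl⟩ : ∃ l, m = l + 1 := ⟨m - 1, by omega⟩
    subst hl
    subst hm
    rw [Nat.add_sub_cancel] at h1
    nlinarith
  · have e1 : n / 2 = m := by omega
    have e3 : (n - 1) / 2 = m := by omega
    rw [e1] at h2
    rw [e3] at h1
    rw [show n - m = m + 1 by omega] at h2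
    subst hm
    nlinarith

end Pool.Agent.R725.Count
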