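import Pool.Agent.R725.RatDefs

set_option autoImplicit false
set_option linter.unusedSectionVars false

namespace Pool.Agent.R725.Comod

open TensorProduct Coalgebra

lemma add_pow_q {k : Type*} [Field k] {R : Type*} [CommRing R] [Algebra k R] (p r : ℕ)
    [Fact p.Prime] [CharP k p] (x y : R) :
    (x + y) ^ (p ^ r) = x ^ (p ^ r) + y ^ (p ^ r) := by
  rcases subsingleton_or_nontrivial R with h | h
  · exact Subsingleton.elim _ _
  · have : CharP R p := charP_of_injective_algebraMap (algebraMap k R).injective p
    exact add_pow_char_pow x y p r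

section defs

variable (k : Type*) [Field k] (B : Type*) [CommRing B] [HopfAlgebra k B] (p r : ℕ)

variable {k B p r}

lemma pow_mem_frobeniusIdeal (a : B) (ha : counit (R := k) a = 0) :
    a ^ (p ^ r) ∈ frobeniusIdeal k B p r :=
  Ideal.subset_span ⟨a, ha, rfl⟩

lemma mk_pow [Fact p.Prime] [CharP k p] (a : B) :
    (Ideal.Quotient.mkₐ k (frobeniusIdeal k B p r) a) ^ (p ^ r) =
      algebraMap k _ (counit (R := k) a ^ (p ^ r)) := by
  have h1 : a = (a - algebraMap k B (counit (R := k) a)) + algebraMap k B (counit (R := k) a) := by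
    ring
  have h2 : a ^ (p ^ r) = (a - algebraMap k B (counit (R := k) a)) ^ (p ^ r) +
      algebraMap k B (counit (R := k) a) ^ (p ^ r) := by
    conv_lhs => rw [h1]
    exact add_pow_q (k := k) p r _ _
  rw [← map_pow, h2, map_add]
  have h3 : Ideal.Quotient.mkₐ k (frobeniusIdeal k B p r)
      ((a - algebraMap k B (counit (R := k) a)) ^ (p ^ r)) = 0 := by
    refine Ideal.Quotient.eq_zero_iff_mem.2 (pow_mem_frobeniusIdeal _ ?_)
    simp
  rw [h3, zero_add, ← map_pow, AlgHom.commutes]

lemma map_pow_q [Fact p.Prime] [CharP k p] (t : B ⊗[k] B) :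
    (Algebra.TensorProduct.map (Ideal.Quotient.mkₐ k (frobeniusIdeal k B p r))
      (Ideal.Quotient.mkₐ k (frobeniusIdeal k B p r)) t) ^ (p ^ r) =
      algebraMap k _ ((LinearMap.mul' k k (TensorProduct.map counit counit t)) ^ (p ^ r)) := by
  induction t with
  | zero => simp [(Fact.out : p.Prime).ne_zero]
  | tmul a b =>
    rw [Algebra.TensorProduct.map_tmul, Algebra.TensorProduct.tmul_pow, mk_pow, mk_pow,
      TensorProduct.map_tmul, LinearMap.mul'_apply, mul_pow, map_mul,
      Algebra.TensorProduct.algebraMap_apply, Algebra.TensorProduct.algebraMap_apply',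
      Algebra.TensorProduct.tmul_mul_tmul]
    simp
  | add x y hx hy =>
    rw [map_add, add_pow_q (k := k), hx, hy, map_add (TensorProduct.map _ _), map_add (LinearMap.mul' k k),
      add_pow_q (k := k) (R := k), map_add (algebraMap _ _)]

/-- the Frobenius kernel is a closed subgroup scheme -/
instance [Fact p.Prime] [CharP k p] : (frobeniusIdeal k B p r).IsHopfIdeal k where
  counit_eq_zero := by
    intro x hx
    have hx' : x ∈ frobeniusIdeal k B p r := hx
    have h0 : frobeniusIdeal k B p r ≤ RingHom.ker (Bialgebra.counitAlgHom k B) := by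
      refine Ideal.span_le.2 ?_
      rintro _ ⟨a, ha, rfl⟩
      have : (Bialgebra.counitAlgHom k B) a = 0 := ha
      simp only [SetLike.mem_coe, RingHom.mem_ker, map_pow, this]
      exact zero_pow (pow_ne_zero _ (Fact.out : p.Prime).ne_zero)
    exact h0 hx'
  map_mkQ_comul_eq_zero := by
    intro x hx
    have hx' : x ∈ frobeniusIdeal k B p r := hx
    have h0 : frobeniusIdeal k B p r ≤ RingHom.ker
        ((Algebra.TensorProduct.map (Ideal.Quotient.mkₐ k (frobeniusIdeal k B p r))
      (Ideal.Quotient.mkₐ k (frobeniusIdeal k B p r))).comp (Bialgebra.comulAlgHom k B)) := by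
      refine Ideal.span_le.2 ?_
      rintro _ ⟨a, ha, rfl⟩
      simp only [SetLike.mem_coe, RingHom.mem_ker, map_pow, AlgHom.comp_apply]
      rw [map_pow_q]
      have h1 : (LinearMap.mul' k k) (TensorProduct.map counit counit
          ((Bialgebra.comulAlgHom k B) a)) = counit (R := k) a := by
        have h2 := congrArg (LinearMap.mul' k k) (congrArg (LinearMap.lTensor k (counit (R := k)))
          (Coalgebra.rTensor_counit_comul (R := k) a))
        rw [← LinearMap.comp_apply (LinearMap.lTensor _ _), LinearMap.lTensor_comp_rTensor] at h2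
        simpa using h2
      rw [h1, ha, zero_pow (pow_ne_zero _ (Fact.out : p.Prime).ne_zero), map_zero]
    exact h0 hx'
  antipode_mem := by
    intro x hx
    have h0 : frobeniusIdeal k B p r ≤
        Ideal.comap (HopfAlgebra.antipodeAlgHom k B) (frobeniusIdeal k B p r) := by
      refine Ideal.span_le.2 ?_
      rintro _ ⟨a, ha, rfl⟩
      simp only [SetLike.mem_coe, Ideal.mem_comap, map_pow]
      refine pow_mem_frobeniusIdeal _ ?_
      simp [ha]
    exact h0 hx

end defs

section kernel

variable {k : Type*} [Field k] {B : Type*} [CommRing B] [HopfAlgebra k B] {p r : ℕ}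

/-- the Frobenius kernel exists -/
lemma isFrobeniusKernel_mk [Fact p.Prime] [CharP k p] : IsFrobeniusKernel p r
    (Bialgebra.Quotient.mkBialgHom (R := k) (frobeniusIdeal k B p r)) :=
  ⟨Ideal.Quotient.mk_surjective, fun _ => Ideal.Quotient.eq_zero_iff_mem⟩

end kernel

end Pool.Agent.R725.Comod
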