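import Mathlib

set_option autoImplicit false

/-!
The monomial matrices form a maximal subgroup of `GL_2(F)` for a field `F` with four elements.
-/

namespace Pool.Agent.R725.Mono

universe u

variable {F : Type u} [Field F]

/-- invertible two by two matrices from their entries -/
def mk (a b c d : F) (h : a * d - b * c ≠ 0) : GL (Fin 2) F :=
  Matrix.GeneralLinearGroup.mkOfDetNeZero !![a, b; c, d] (by rwa [Matrix.det_fin_two_of])

@[simp] theorem mk_coe (a b c d : F) (h : a * d - b * c ≠ 0) :
    ((mk a b c d h : GL (Fin 2) F) : Matrix (Fin 2) (Fin 2) F) = !![a, b; c, d] := rfl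

theorem ext_iff' (g h : GL (Fin 2) F) : g = h ↔ g 0 0 = h 0 0 ∧ g 0 1 = h 0 1 ∧
    g 1 0 = h 1 0 ∧ g 1 1 = h 1 1 := by
  constructor
  · rintro rfl; simp
  · rintro ⟨h1, h2, h3, h4⟩
    ext i j
    fin_cases i <;> fin_cases j <;> assumption

theorem det_ne (g : GL (Fin 2) F) : g 0 0 * g 1 1 - g 0 1 * g 1 0 ≠ 0 := by
  have := Matrix.GeneralLinearGroup.det_ne_zero g
  rwa [Matrix.det_fin_two] at this

theorem eq_mk (g : GL (Fin 2) F) : g = mk (g 0 0) (g 0 1) (g 1 0) (g 1 1) (det_ne g) := by
  rw [ext_iff']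
  simp

theorem exists_mk (g : GL (Fin 2) F) : ∃ (a b c d : F) (h : a * d - b * c ≠ 0),
    g = mk a b c d h := ⟨_, _, _, _, det_ne g, eq_mk g⟩

theorem mk_mul (a b c d a' b' c' d' : F) (h : a * d - b * c ≠ 0) (h' : a' * d' - b' * c' ≠ 0) :
    mk a b c d h * mk a' b' c' d' h' = mk (a * a' + b * c') (a * b' + b * d')
      (c * a' + d * c') (c * b' + d * d') (by
        have e : (a * a' + b * c') * (c * b' + d * d') - (a * b' + b * d') * (c * a' + d * c') =
          (a * d - b * c) * (a' * d' - b' * c') := by ring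
        rw [e]; exact mul_ne_zero h h') := by
  rw [ext_iff']
  simp [Matrix.mul_apply, Fin.sum_univ_two]

theorem mk_inv (a b c d : F) (h : a * d - b * c ≠ 0) :
    (mk a b c d h)⁻¹ = mk (d / (a * d - b * c)) (-b / (a * d - b * c)) (-c / (a * d - b * c))
      (a / (a * d - b * c)) (by
        have e : d / (a * d - b * c) * (a / (a * d - b * c)) -
          -b / (a * d - b * c) * (-c / (a * d - b * c)) = (a * d - b * c)⁻¹ := by
          field_simp
        rw [e]; exact inv_ne_zero h) := by
  rw [inv_eq_iff_mul_eq_one, mk_mul, ext_iff']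
  simp only [mk_coe, Units.val_one]
  refine ⟨?_, ?_, ?_, ?_⟩
  · show a * (d / (a * d - b * c)) + b * (-c / (a * d - b * c)) = 1
    rw [mul_div_assoc', mul_div_assoc', ← add_div, div_eq_one_iff_eq h]
    ring
  · show a * (-b / (a * d - b * c)) + b * (a / (a * d - b * c)) = 0
    rw [mul_div_assoc', mul_div_assoc', ← add_div, div_eq_zero_iff]
    left
    ring
  · show c * (d / (a * d - b * c)) + d * (-c / (a * d - b * c)) = 0
    rw [mul_div_assoc', mul_div_assoc', ← add_div, div_eq_zero_iff]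
    left
    ring
  · show c * (-b / (a * d - b * c)) + d * (a / (a * d - b * c)) = 1
    rw [mul_div_assoc', mul_div_assoc', ← add_div, div_eq_one_iff_eq h]
    ring

/-- the monomial matrices -/
def monomial (F : Type u) [Field F] : Subgroup (GL (Fin 2) F) where
  carrier := {g | (g 0 1 = 0 ∧ g 1 0 = 0) ∨ (g 0 0 = 0 ∧ g 1 1 = 0)}
  one_mem' := by left; simp
  mul_mem' := by
    intro g h hg hh
    rw [eq_mk g, eq_mk h, mk_mul]
    simp only [Set.mem_ofPred_eq] at hg hh ⊢
    rcases hg with ⟨h1, h2⟩ | ⟨h1, h2⟩ <;> rcases hh with ⟨h3, h4⟩ | ⟨h3, h4⟩ <;>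
      simp [h1, h2, h3, h4]
  inv_mem' := by
    intro g hg
    rw [eq_mk g, mk_inv]
    simp only [Set.mem_ofPred_eq] at hg ⊢
    rcases hg with ⟨h1, h2⟩ | ⟨h1, h2⟩ <;> simp [h1, h2]

theorem mem_monomial (g : GL (Fin 2) F) :
    g ∈ monomial F ↔ (g 0 1 = 0 ∧ g 1 0 = 0) ∨ (g 0 0 = 0 ∧ g 1 1 = 0) := Iff.rfl

section
variable (K : Subgroup (GL (Fin 2) F)) (hK : monomial F ≤ K)
include hK

theorem diag_mem (a d : F) (h : a * d - 0 * 0 ≠ 0) : mk a 0 0 d h ∈ K :=
  hK (Or.inl ⟨rfl, rfl⟩)

theorem swap_mem : mk 0 1 1 0 (by simp) ∈ K :=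
  hK (Or.inr ⟨rfl, rfl⟩)

/-- if the upper unitriangular matrices are in `K` then `K` is everything -/
theorem top_of_upper (hU : ∀ t : F, mk 1 t 0 1 (by simp) ∈ K) : K = ⊤ := by
  have hup : ∀ (a b d : F) (h : a * d - b * 0 ≠ 0), mk a b 0 d h ∈ K := by
    intro a b d h
    have had : a * d ≠ 0 := by simpa using h
    have ha : a ≠ 0 := left_ne_zero_of_mul had
    have e : mk a b 0 d h = mk a 0 0 d (by simpa using had) * mk 1 (b / a) 0 1 (by simp) := by
      rw [mk_mul, ext_iff']
      simp
      field_simp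
    rw [e]
    exact K.mul_mem (diag_mem K hK _ _ _) (hU _)
  have hS := swap_mem K hK
  rw [eq_top_iff]
  intro g _
  obtain ⟨a, b, c, d, hd, rfl⟩ := exists_mk g
  by_cases hc : c = 0
  · subst hc
    exact hup a b d hd
  · -- lower * (swap g) is upper triangular
    have hL : mk 1 0 (-a / c) 1 (by simp) ∈ K := by
      have e : mk 1 0 (-a / c) 1 (by simp) = mk 0 1 1 0 (by simp) * mk 1 (-a / c) 0 1 (by simp) *
          mk 0 1 1 0 (by simp) := by
        rw [mk_mul, mk_mul, ext_iff']
        simp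
      rw [e]
      exact K.mul_mem (K.mul_mem hS (hU _)) hS
    have hne : b - a * d / c ≠ 0 := by
      intro h0
      apply hd
      field_simp at h0
      linear_combination -h0
    have e : mk c d 0 (b - a * d / c) (by simpa using ⟨hc, hne⟩) =
        mk 1 0 (-a / c) 1 (by simp) * (mk 0 1 1 0 (by simp) * mk a b c d hd) := by
      rw [mk_mul, mk_mul, ext_iff']
      simp
      constructor
      · field_simp
        ring
      · ring
    have hT := hup c d (b - a * d / c) (by simpa using ⟨hc, hne⟩)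
    rw [e] at hT
    have h1 := (K.mul_mem_cancel_left hL).1 hT
    exact (K.mul_mem_cancel_left hS).1 h1

/-- one nontrivial upper unitriangular matrix suffices -/
theorem top_of_one (t : F) (ht : t ≠ 0) (hU : mk 1 t 0 1 (by simp) ∈ K) : K = ⊤ := by
  apply top_of_upper K hK
  intro s
  by_cases hs : s = 0
  · subst hs
    exact diag_mem K hK 1 1 (by simp)
  · have e : mk 1 s 0 1 (by simp) = mk (s / t) 0 0 1 (by simp [hs, ht]) * mk 1 t 0 1 (by simp) *
        mk (t / s) 0 0 1 (by simp [hs, ht]) := by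
      rw [mk_mul, mk_mul, ext_iff']
      simp [hs, ht]
    rw [e]
    exact K.mul_mem (K.mul_mem (diag_mem K hK _ _ _) hU) (diag_mem K hK _ _ _)

/-- an upper triangular non-diagonal matrix suffices -/
theorem top_of_tri (a b d : F) (h : a * d - b * 0 ≠ 0) (hb : b ≠ 0) (hU : mk a b 0 d h ∈ K) :
    K = ⊤ := by
  have had : a * d ≠ 0 := by simpa using h
  have ha : a ≠ 0 := left_ne_zero_of_mul had
  have hd : d ≠ 0 := right_ne_zero_of_mul had
  apply top_of_one K hK (b / a) (div_ne_zero hb ha)
  have e : mk 1 (b / a) 0 1 (by simp) = mk a⁻¹ 0 0 d⁻¹ (by simp [ha, hd]) * mk a b 0 d h := by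
    rw [mk_mul, ext_iff']
    simp [ha, hd, div_eq_inv_mul]
  rw [e]
  exact K.mul_mem (diag_mem K hK _ _ _) hU

/-- a matrix with exactly one zero entry suffices -/
theorem top_of_zero (a b c d : F) (h : a * d - b * c ≠ 0) (hm : mk a b c d h ∈ K)
    (hn : mk a b c d h ∉ monomial F) (hz : a = 0 ∨ b = 0 ∨ c = 0 ∨ d = 0) : K = ⊤ := by
  have hS := swap_mem K hK
  have hn' : ¬ ((b = 0 ∧ c = 0) ∨ (a = 0 ∧ d = 0)) := by
    intro h'
    exact hn h'
  push Not at hn'
  rcases hz with rfl | rfl | rfl | rfl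
  · -- swap * g
    have e := K.mul_mem hS hm
    rw [mk_mul] at e
    have hd : d ≠ 0 := hn'.2 rfl
    refine top_of_tri K hK c d b (by simpa [mul_comm] using h) hd ?_
    convert e using 2 <;> ring
  · -- swap * g * swap
    have e := K.mul_mem (K.mul_mem hS hm) hS
    rw [mk_mul, mk_mul] at e
    have hc : c ≠ 0 := hn'.1 rfl
    refine top_of_tri K hK d c a (by simpa [mul_comm] using h) hc ?_
    convert e using 2 <;> ring
  · have hb : b ≠ 0 := fun hb => hn'.1 hb rfl
    exact top_of_tri K hK a b d h hb hm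
  · have e := K.mul_mem hm hS
    rw [mk_mul] at e
    have ha : a ≠ 0 := fun ha => hn'.2 ha rfl
    refine top_of_tri K hK b a c (by simpa [mul_comm] using h) ha ?_
    convert e using 2 <;> ring

end

/-- For a field of characteristic two with `e ^ 2 ≠ 1` for all `e ≠ 1` the monomial group is
maximal. -/
theorem isCoatom_monomial [CharP F 2] : IsCoatom (monomial F) := by
  have h2 : (2 : F) = 0 := by exact_mod_cast CharP.cast_eq_zero F 2
  refine ⟨?_, ?_⟩
  · intro h
    have : mk (1 : F) 1 0 1 (by simp) ∈ monomial F := by rw [h]; exact Subgroup.mem_top _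
    rcases this with ⟨h1, -⟩ | ⟨h1, -⟩
    · simp at h1
    · simp at h1
  · intro K hK
    obtain ⟨hle, g, hgK, hgm⟩ := SetLike.lt_iff_le_and_exists.1 hK
    obtain ⟨a, b, c, d, hd, rfl⟩ := exists_mk g
    by_cases hz : a = 0 ∨ b = 0 ∨ c = 0 ∨ d = 0
    · exact top_of_zero K hle a b c d hd hgK hgm hz
    · push Not at hz
      obtain ⟨ha, hb, hc, hd0⟩ := hz
      -- normalise to (1, 1; 1, e)
      set e : F := a * d / (b * c) with he
      have he1 : e ≠ 1 := by
        intro h1
        apply hd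
        rw [he, div_eq_one_iff_eq (mul_ne_zero hb hc)] at h1
        rw [h1, sub_self]
      have hN : mk 1 1 1 e (by simpa [sub_ne_zero] using he1) ∈ K := by
        have e1 : mk 1 1 1 e (by simpa [sub_ne_zero] using he1) =
            mk a⁻¹ 0 0 c⁻¹ (by simp [ha, hc]) * mk a b c d hd *
              mk 1 0 0 (a / b) (by simp [ha, hb]) := by
          rw [mk_mul, mk_mul, ext_iff']
          refine ⟨?_, ?_, ?_, ?_⟩
          · simp [ha]
          · show (1 : F) = (a⁻¹ * a + 0 * c) * 0 + (a⁻¹ * b + 0 * d) * (a / b)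
            field_simp
            ring
          · show (1 : F) = (0 * a + c⁻¹ * c) * 1 + (0 * b + c⁻¹ * d) * 0
            field_simp
            ring
          · show e = (0 * a + c⁻¹ * c) * 0 + (0 * b + c⁻¹ * d) * (a / b)
            rw [he]
            field_simp
            ring
        rw [e1]
        exact K.mul_mem (K.mul_mem (diag_mem K hle _ _ _) hgK) (diag_mem K hle _ _ _)
      have hsq := K.mul_mem hN hN
      rw [mk_mul] at hsq
      have h1e : (1 : F) + e ≠ 0 := by
        intro h0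
        apply he1
        linear_combination h0 - h2
      refine top_of_zero K hle _ _ _ _ _ hsq ?_ (Or.inl (by linear_combination h2))
      rintro (⟨h1, -⟩ | ⟨-, h1⟩)
      · simp at h1
        exact h1e h1
      · simp at h1
        have : (1 + e) * (1 + e) = 0 := by linear_combination h1 + e * h2
        exact h1e (mul_self_eq_zero.1 this)

end Pool.Agent.R725.Mono
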