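import Mathlib

/-!
# Graphs of path-width 2 are not nonrepetitively choosable from lists of bounded size (MP_924390_co)

`G`: a path `p_0 p_1 ... p_N`, and for every `t` and every `d`-subset `j` of the union `U` of the
(pairwise disjoint) lists of the `p_t` a vertex `v_{t,j}` with list `j`, adjacent to `p_t` and `p_{t+1}`.
-/

set_option autoImplicit false

namespace Pool.Agent.R725.NR

open Finset

/-- a walk through prescribed vertices -/
theorem exists_walk {V : Type} (G : SimpleGraph V) : ∀ (n : ℕ) (g : ℕ → V),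
    (∀ i, i < n → G.Adj (g i) (g (i + 1))) →
    ∃ p : G.Walk (g 0) (g n), p.length = n ∧ ∀ i, i ≤ n → p.getVert i = g i := by
  intro n
  induction n with
  | zero =>
    intro g _
    refine ⟨SimpleGraph.Walk.nil, rfl, ?_⟩
    intro i hi
    obtain rfl : i = 0 := by omega
    simp
  | succ n ih =>
    intro g hg
    obtain ⟨p, hp1, hp2⟩ := ih (fun i => g (i + 1)) (fun i hi => hg (i + 1) (by omega))
    refine ⟨SimpleGraph.Walk.cons (hg 0 (by omega)) p, by simp [hp1], ?_⟩
    intro i hi
    cases i with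
    | zero => simp
    | succ i =>
      rw [SimpleGraph.Walk.getVert_cons_succ]
      exact hp2 i (by omega)

variable (N K : ℕ)

/-- vertices -/
abbrev Vt : Type := Fin (N + 1) ⊕ (Fin (N + 1) × Fin K)

/-- adjacency -/
def adj : Vt N K → Vt N K → Prop
  | Sum.inl a, Sum.inl b => a.val + 1 = b.val ∨ b.val + 1 = a.val
  | Sum.inl a, Sum.inr p => a.val = p.1.val ∨ a.val = p.1.val + 1
  | Sum.inr p, Sum.inl a => a.val = p.1.val ∨ a.val = p.1.val + 1
  | Sum.inr _, Sum.inr _ => False

/-- the graph -/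
def Gr : SimpleGraph (Vt N K) where
  Adj := adj N K
  symm := ⟨by
    intro x y h
    rcases x with a | p <;> rcases y with b | q
    · exact h.symm
    · exact h
    · exact h
    · exact h⟩
  loopless := ⟨by
    intro x h
    rcases x with a | p
    · rcases h with h | h <;> omega
    · exact h⟩

/-- the vertex `p_t` -/
def P (t : ℕ) : Vt N K := Sum.inl ⟨t % (N + 1), Nat.mod_lt _ (Nat.succ_pos _)⟩

/-- the vertex `v_{t,j}` -/
def W (t : ℕ) (j : Fin K) : Vt N K := Sum.inr (⟨t % (N + 1), Nat.mod_lt _ (Nat.succ_pos _)⟩, j)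

theorem adj_PW (t : ℕ) (j : Fin K) : (Gr N K).Adj (P N K t) (W N K t j) := by
  change t % (N + 1) = t % (N + 1) ∨ _
  exact Or.inl rfl

theorem adj_WP (t : ℕ) (j : Fin K) (h : t + 1 ≤ N) :
    (Gr N K).Adj (W N K t j) (P N K (t + 1)) := by
  change (t + 1) % (N + 1) = t % (N + 1) ∨ (t + 1) % (N + 1) = t % (N + 1) + 1
  right
  rw [Nat.mod_eq_of_lt (by omega), Nat.mod_eq_of_lt (by omega)]

open Classical in
/-- the bags -/
noncomputable def Bag (i : ℕ) : Finset (Vt N K) :=
  if h : i / K < N + 1 ∧ 0 < K then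
    {Sum.inl ⟨i / K, h.1⟩, Sum.inl ⟨min (i / K + 1) N, by omega⟩,
      Sum.inr (⟨i / K, h.1⟩, ⟨i % K, Nat.mod_lt _ h.2⟩)}
  else ∅

theorem mem_bag_inl (a : Fin (N + 1)) (i : ℕ) (hK : 0 < K) :
    (Sum.inl a : Vt N K) ∈ Bag N K i ↔
      i / K < N + 1 ∧ (a.val = i / K ∨ a.val = min (i / K + 1) N) := by
  classical
  unfold Bag
  by_cases h : i / K < N + 1 ∧ 0 < K
  · rw [dif_pos h]
    simp only [Finset.mem_insert, Finset.mem_singleton, Sum.inl.injEq, Fin.ext_iff, reduceCtorEq,
      or_false]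
    constructor
    · intro h'; exact ⟨h.1, h'⟩
    · intro h'; exact h'.2
  · rw [dif_neg h]
    constructor
    · intro h'; simp at h'
    · intro h'; exact absurd ⟨h'.1, hK⟩ h

theorem mem_bag_inr (p : Fin (N + 1) × Fin K) (i : ℕ) :
    (Sum.inr p : Vt N K) ∈ Bag N K i ↔ (p.1.val = i / K ∧ p.2.val = i % K) := by
  classical
  unfold Bag
  have hK : 0 < K := lt_of_le_of_lt (Nat.zero_le _) p.2.isLt
  by_cases h : i / K < N + 1 ∧ 0 < K
  · rw [dif_pos h]
    simp only [Finset.mem_insert, Finset.mem_singleton, Sum.inr.injEq, Prod.ext_iff, Fin.ext_iff,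
      reduceCtorEq, false_or]
  · rw [dif_neg h]
    constructor
    · intro h'; simp at h'
    · intro h'
      have := p.1.isLt
      exact absurd ⟨by omega, hK⟩ h

theorem pw (hK : 0 < K) :
    (∀ i, (Bag N K i).card ≤ 3) ∧
    (∀ v : Vt N K, ∃ i, v ∈ Bag N K i) ∧
    (∀ u v : Vt N K, (Gr N K).Adj u v → ∃ i, u ∈ Bag N K i ∧ v ∈ Bag N K i) ∧
    (∀ (v : Vt N K) (i j k : ℕ), i ≤ j → j ≤ k → v ∈ Bag N K i → v ∈ Bag N K k →
      v ∈ Bag N K j) := by
  classical
  have hdiv : ∀ a : ℕ, a * K / K = a := fun a => Nat.mul_div_cancel a hK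
  refine ⟨?_, ?_, ?_, ?_⟩
  · intro i
    unfold Bag
    split_ifs with h
    · exact Finset.card_le_three
    · simp
  · intro v
    rcases v with a | p
    · refine ⟨a.val * K, ?_⟩
      rw [mem_bag_inl N K a _ hK, hdiv]
      exact ⟨a.isLt, Or.inl rfl⟩
    · refine ⟨p.1.val * K + p.2.val, ?_⟩
      rw [mem_bag_inr]
      have h2 := p.2.isLt
      constructor
      · rw [mul_comm, Nat.mul_add_div hK, Nat.div_eq_of_lt h2, add_zero]
      · rw [mul_comm, Nat.mul_add_mod, Nat.mod_eq_of_lt h2]
  · -- edges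
    have key1 : ∀ a b : Fin (N + 1), a.val + 1 = b.val →
        ∃ i, (Sum.inl a : Vt N K) ∈ Bag N K i ∧ (Sum.inl b : Vt N K) ∈ Bag N K i := by
      intro a b h
      refine ⟨a.val * K, ?_, ?_⟩
      · rw [mem_bag_inl N K a _ hK, hdiv]
        exact ⟨a.isLt, Or.inl rfl⟩
      · rw [mem_bag_inl N K b _ hK, hdiv]
        have := b.isLt
        exact ⟨a.isLt, Or.inr (by omega)⟩
    have key2 : ∀ (a : Fin (N + 1)) (p : Fin (N + 1) × Fin K),
        (a.val = p.1.val ∨ a.val = p.1.val + 1) →
        ∃ i, (Sum.inl a : Vt N K) ∈ Bag N K i ∧ (Sum.inr p : Vt N K) ∈ Bag N K i := by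
      intro a p h
      have h2 := p.2.isLt
      have h1 := p.1.isLt
      have ha := a.isLt
      have e1 : (p.1.val * K + p.2.val) / K = p.1.val := by
        rw [mul_comm, Nat.mul_add_div hK, Nat.div_eq_of_lt h2, add_zero]
      have e2 : (p.1.val * K + p.2.val) % K = p.2.val := by
        rw [mul_comm, Nat.mul_add_mod, Nat.mod_eq_of_lt h2]
      refine ⟨p.1.val * K + p.2.val, ?_, ?_⟩
      · rw [mem_bag_inl N K a _ hK, e1]
        refine ⟨h1, ?_⟩
        rcases h with h | h
        · exact Or.inl h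
        · exact Or.inr (by omega)
      · rw [mem_bag_inr, e1, e2]
        exact ⟨rfl, rfl⟩
    intro u v h
    rcases u with a | p <;> rcases v with b | q
    · rcases h with h | h
      · exact key1 a b h
      · obtain ⟨i, h1, h2⟩ := key1 b a h
        exact ⟨i, h2, h1⟩
    · exact key2 a q h
    · obtain ⟨i, h1, h2⟩ := key2 b p h
      exact ⟨i, h2, h1⟩
    · exact absurd h (fun h => h)
  · intro v i j k hij hjk hi hk
    have d1 : i / K ≤ j / K := Nat.div_le_div_right hij
    have d2 : j / K ≤ k / K := Nat.div_le_div_right hjk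
    rcases v with a | p
    · rw [mem_bag_inl N K a _ hK] at hi hk ⊢
      have ha := a.isLt
      obtain ⟨hi1, hi2⟩ := hi
      obtain ⟨hk1, hk2⟩ := hk
      refine ⟨by omega, ?_⟩
      omega
    · rw [mem_bag_inr] at hi hk
      obtain ⟨hi1, hi2⟩ := hi
      obtain ⟨hk1, hk2⟩ := hk
      have e1 : i = k := by
        have a1 := Nat.div_add_mod i K
        have a2 := Nat.div_add_mod k K
        rw [← hi1, ← hi2] at a1
        rw [← hk1, ← hk2] at a2
        omega
      have e2 : j = i := by omega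
      rw [e2, mem_bag_inr]
      exact ⟨hi1, hi2⟩

/-- the repetitive path: if all targets in the window `[s, s+2m-2]` are available, there is a
repetitively coloured path -/
theorem rep_path (f : Vt N K → ℕ) (m s : ℕ) (hm : 1 ≤ m) (hs : s + 2 * m ≤ N + 1)
    (w : ℕ → Fin K)
    (h1 : ∀ t, s ≤ t → t + 1 < s + m → f (W N K t (w t)) = f (P N K (t + m)))
    (h2 : ∀ t, s + m ≤ t + 1 → t + 2 ≤ s + 2 * m → f (W N K t (w t)) = f (P N K (t + 1 - m))) :
    ∃ (u v : Vt N K) (p : (Gr N K).Walk u v), p.IsPath ∧ ∃ k : ℕ, 1 ≤ k ∧ p.length + 1 = 2 * k ∧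
      (∀ i : ℕ, i < k → f (p.getVert i) = f (p.getVert (i + k))) := by
  classical
  let g : ℕ → Vt N K := fun n =>
    if n % 2 = 0 then P N K (s + n / 2) else W N K (s + n / 2) (w (s + n / 2))
  have hadj : ∀ i, i < 4 * m - 3 → (Gr N K).Adj (g i) (g (i + 1)) := by
    intro i hi
    rcases Nat.mod_two_eq_zero_or_one i with h | h
    · have e : g i = P N K (s + i / 2) := by simp [g, h]
      have e' : g (i + 1) = W N K (s + i / 2) (w (s + i / 2)) := by
        have h' : (i + 1) % 2 = 1 := by omega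
        have h'' : (i + 1) / 2 = i / 2 := by omega
        simp [g, h', h'']
      rw [e, e']
      exact adj_PW N K _ _
    · have e : g i = W N K (s + i / 2) (w (s + i / 2)) := by simp [g, h]
      have e' : g (i + 1) = P N K (s + i / 2 + 1) := by
        have h' : (i + 1) % 2 = 0 := by omega
        have h'' : s + (i + 1) / 2 = s + i / 2 + 1 := by omega
        simp [g, h', h'']
      rw [e, e']
      exact adj_WP N K _ _ (by omega)
  obtain ⟨p, hp1, hp2⟩ := exists_walk (Gr N K) (4 * m - 3) g hadj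
  refine ⟨_, _, p, ?_, 2 * m - 1, by omega, by omega, ?_⟩
  · rw [← SimpleGraph.Walk.IsPath.getVert_injOn_iff]
    intro i hi i' hi' heq
    simp only [Set.mem_ofPred_eq] at hi hi'
    rw [hp1] at hi hi'
    rw [hp2 i hi, hp2 i' hi'] at heq
    rcases Nat.mod_two_eq_zero_or_one i with h | h <;>
      rcases Nat.mod_two_eq_zero_or_one i' with h' | h'
    · simp only [g, h, h', P, if_true, Sum.inl.injEq, Fin.mk.injEq] at heq
      rw [Nat.mod_eq_of_lt (by omega), Nat.mod_eq_of_lt (by omega)] at heq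
      omega
    · simp only [g, h, h', P, W, if_true, Nat.one_ne_zero, if_false] at heq
      exact absurd heq (by simp)
    · simp only [g, h, h', P, W, if_true, Nat.one_ne_zero, if_false] at heq
      exact absurd heq (by simp)
    · simp only [g, h, h', W, Nat.one_ne_zero, if_false, Sum.inr.injEq, Prod.mk.injEq,
        Fin.mk.injEq] at heq
      have := heq.1
      rw [Nat.mod_eq_of_lt (by omega), Nat.mod_eq_of_lt (by omega)] at this
      omega
  · intro i hi
    rw [hp2 i (by omega), hp2 (i + (2 * m - 1)) (by omega)]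
    rcases Nat.mod_two_eq_zero_or_one i with h | h
    · have e : g i = P N K (s + i / 2) := by simp [g, h]
      have e' : g (i + (2 * m - 1)) = W N K (s + i / 2 + m - 1) (w (s + i / 2 + m - 1)) := by
        have h' : (i + (2 * m - 1)) % 2 = 1 := by omega
        have h'' : s + (i + (2 * m - 1)) / 2 = s + i / 2 + m - 1 := by omega
        simp only [g, h', h'', Nat.one_ne_zero, if_false]
      rw [e, e', h2 _ (by omega) (by omega)]
      congr 2
      omega
    · have e : g i = W N K (s + i / 2) (w (s + i / 2)) := by simp [g, h]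
      have e' : g (i + (2 * m - 1)) = P N K (s + i / 2 + m) := by
        have h' : (i + (2 * m - 1)) % 2 = 0 := by omega
        have h'' : s + (i + (2 * m - 1)) / 2 = s + i / 2 + m := by omega
        simp only [g, h', h'', if_true]
      rw [e, e', h1 _ (by omega) (by omega)]

end Pool.Agent.R725.NR
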