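import Mathlib

set_option autoImplicit false

/-!
Coordinate computations for the Frobenius parabolic complements of MP_8024d7_al.
All matrices are viewed as functions `ℕ → ℕ → K` on indices `< n`.
-/

namespace Pool.Agent.R725.Par

open Finset

/-- the number of the block containing the index `i` -/
def bl (n i : ℕ) : ℕ := if n % 2 = 1 ∨ 2 * i < n then (i + 1) / 2 else i / 2 + 1

/-- the support of the vector `e v_0` -/
def cc (n m : ℕ) : Prop := (m % 2 = 1 ∧ 2 * m ≤ n) ∨ (1 ≤ m ∧ (n - m) % 2 = 0 ∧ n ≤ 2 * m)

instance (n m : ℕ) : Decidable (cc n m) := by unfold cc; infer_instance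

variable {K : Type*} [Field K]

/-- `(x e - e x)_{ij}` for `j ≥ 1` -/
def Y (n : ℕ) (X : ℕ → ℕ → K) (i j : ℕ) : K :=
  (if 2 * j < n then X i (n - j) else 0) -
    ((if cc n i then X 0 j else 0) + (if n < 2 * i then X (n - i) j else 0))

theorem X0 (n : ℕ) (hn : 3 ≤ n) (X : ℕ → ℕ → K)
    (hY : ∀ i j, i < n → 1 ≤ j → j < n → bl n j ≤ bl n i → Y n X i j = 0) :
    ∀ j, 1 ≤ j → j < n → X 0 j = 0 := by
  -- the middle index
  have hM : ∀ j, 2 * j = n → X 0 j = 0 := by
    intro j hj
    have h := hY j j (by omega) (by omega) (by omega) le_rfl
    have hc : cc n j := by unfold cc; omega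
    simp only [Y, hc, if_true, if_neg (show ¬ 2 * j < n by omega),
      if_neg (show ¬ n < 2 * j by omega), add_zero, zero_sub, neg_eq_zero] at h
    exact h
  -- the sum of the two equations
  have hsum : ∀ a j, 1 ≤ a → 2 * a < n → 1 ≤ j → 2 * j < n → bl n a = bl n j →
      (if a % 2 = 1 then X 0 j else X 0 (n - j)) = 0 := by
    intro a j ha ha' hj hj' hb
    have h1 := hY a j (by omega) hj (by omega) (by omega)
    have h2 := hY (n - a) (n - j) (by omega) (by omega) (by omega) (by unfold bl at *; split_ifs at * <;> omega)
    simp only [Y, if_pos hj', if_neg (show ¬ n < 2 * a by omega), add_zero] at h1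
    simp only [Y, if_neg (show ¬ 2 * (n - j) < n by omega), if_pos (show n < 2 * (n - a) by omega),
      show n - (n - a) = a by omega] at h2
    by_cases hpar : a % 2 = 1
    · have hc1 : cc n a := by unfold cc; omega
      have hc2 : ¬ cc n (n - a) := by unfold cc; omega
      rw [if_pos hc1] at h1
      rw [if_neg hc2] at h2
      rw [if_pos hpar]
      linear_combination -h1 - h2
    · have hc1 : ¬ cc n a := by unfold cc; omega
      have hc2 : cc n (n - a) := by unfold cc; omega
      rw [if_neg hc1] at h1
      rw [if_pos hc2] at h2
      rw [if_neg hpar]
      linear_combination -h1 - h2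
  have hL : ∀ j, 1 ≤ j → 2 * j < n → X 0 j = 0 ∧ X 0 (n - j) = 0 := by
    intro j hj hj'
    by_cases hpar : j % 2 = 1
    · have h1 := hsum j j hj hj' hj hj' rfl
      rw [if_pos hpar] at h1
      refine ⟨h1, ?_⟩
      by_cases hj2 : 2 * (j + 1) < n
      · have h2 := hsum (j + 1) j (by omega) hj2 hj hj' (by unfold bl; split_ifs <;> omega)
        rwa [if_neg (by omega)] at h2
      · -- unpaired
        by_cases hodd : n % 2 = 1
        · -- `n = 2 j + 1`
          have h2 := hY j (n - j) (by omega) (by omega) (by omega)
            (by unfold bl; split_ifs <;> omega)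
          have hc : cc n j := by unfold cc; omega
          simp only [Y, if_neg (show ¬ 2 * (n - j) < n by omega), if_pos hc,
            if_neg (show ¬ n < 2 * j by omega), add_zero, zero_sub, neg_eq_zero] at h2
          exact h2
        · -- `n = 2 (j + 1)`
          have h2 := hY (j + 1) (n - j) (by omega) (by omega) (by omega)
            (by unfold bl; split_ifs <;> omega)
          have hc : cc n (j + 1) := by unfold cc; omega
          simp only [Y, if_neg (show ¬ 2 * (n - j) < n by omega), if_pos hc,
            if_neg (show ¬ n < 2 * (j + 1) by omega), add_zero, zero_sub, neg_eq_zero] at h2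
          exact h2
    · have h1 := hsum j j hj hj' hj hj' rfl
      rw [if_neg hpar] at h1
      refine ⟨?_, h1⟩
      have h2 := hsum (j - 1) j (by omega) (by omega) hj hj' (by unfold bl; split_ifs <;> omega)
      rwa [if_pos (by omega)] at h2
  intro j hj hjn
  rcases Nat.lt_trichotomy (2 * j) n with h | h | h
  · exact (hL j hj h).1
  · exact hM j h
  · have := (hL (n - j) (by omega) (by omega)).2
    rwa [show n - (n - j) = j by omega] at this

/-- `[gl, e] ∩ 𝔫 = 0`, for the columns `j ≥ 1`. -/
theorem noNil (n : ℕ) (hn : 3 ≤ n) (X : ℕ → ℕ → K)
    (hY : ∀ i j, i < n → 1 ≤ j → j < n → bl n j ≤ bl n i → Y n X i j = 0) :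
    ∀ i j, i < n → 1 ≤ j → j < n → Y n X i j = 0 := by
  have h0 := X0 n hn X hY
  intro i j hi hj hjn
  by_cases hb : bl n j ≤ bl n i
  · exact hY i j hi hj hjn hb
  push Not at hb
  -- `i = 0`
  by_cases hi0 : i = 0
  · subst hi0
    have hc : ¬ cc n 0 := by unfold cc; omega
    simp only [Y, if_neg hc, if_neg (show ¬ n < 2 * 0 by omega), add_zero, sub_zero]
    split_ifs with h
    · exact h0 _ (by omega) (by omega)
    · rfl
  rcases Nat.lt_trichotomy (2 * i) n with h | h | h
  · -- `i` on the left
    by_cases hj2 : 2 * j < n
    · have h1 := hY (n - i) (n - j) (by omega) (by omega) (by omega)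
        (by unfold bl at *; split_ifs at * <;> omega)
      simp only [Y, if_neg (show ¬ 2 * (n - j) < n by omega),
        if_pos (show n < 2 * (n - i) by omega), show n - (n - i) = i by omega,
        h0 (n - j) (by omega) (by omega), ite_self, zero_add, zero_sub, neg_eq_zero] at h1
      simp only [Y, if_pos hj2, if_neg (show ¬ n < 2 * i by omega), h0 j hj hjn, ite_self,
        h1, add_zero, sub_zero]
    · simp only [Y, if_neg hj2, if_neg (show ¬ n < 2 * i by omega), h0 j hj hjn, ite_self,
        add_zero, sub_zero]
  · -- middle
    by_cases hj2 : 2 * j < n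
    · exfalso
      revert hb
      unfold bl
      split_ifs <;> omega
    · simp only [Y, if_neg hj2, if_neg (show ¬ n < 2 * i by omega), h0 j hj hjn, ite_self,
        add_zero, sub_zero]
  · -- `i` on the right
    rcases Nat.lt_trichotomy (2 * j) n with h' | h' | h'
    · exfalso
      revert hb
      unfold bl
      split_ifs <;> omega
    · exfalso
      revert hb
      unfold bl
      split_ifs <;> omega
    · have h1 := hY (n - i) (n - j) (by omega) (by omega) (by omega)
        (by unfold bl at *; split_ifs at * <;> omega)
      simp only [Y, if_pos (show 2 * (n - j) < n by omega),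
        if_neg (show ¬ n < 2 * (n - i) by omega), show n - (n - j) = j by omega,
        h0 (n - j) (by omega) (by omega), ite_self, add_zero, sub_zero] at h1
      simp only [Y, if_neg (show ¬ 2 * j < n by omega), if_pos h, h0 j hj hjn, ite_self,
        h1, add_zero, sub_zero]

/-- A matrix in the parabolic subalgebra which commutes with `e` is scalar. -/
theorem scalar (n : ℕ) (hn : 3 ≤ n) (X : ℕ → ℕ → K)
    (hblk : ∀ i j, i < n → j < n → bl n j < bl n i → X i j = 0)
    (hY : ∀ i j, i < n → 1 ≤ j → j < n → Y n X i j = 0)
    (hw : ∀ i, i < n → ∑ m ∈ range n, X i m * (if cc n m then 1 else 0) =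
      (if cc n i then X 0 0 else 0) + (if n < 2 * i then X (n - i) 0 else 0)) :
    ∀ i j, i < n → j < n → X i j = if i = j then X 0 0 else 0 := by
  have h0 := X0 n hn X (fun i j hi hj hjn _ => hY i j hi hj hjn)
  have hcol0 : ∀ i, 1 ≤ i → i < n → X i 0 = 0 := by
    intro i hi hin
    exact hblk i 0 hin (by omega) (by unfold bl; split_ifs <;> omega)
  -- (2)
  have hLR : ∀ a j, 1 ≤ a → 2 * a < n → j < n → n ≤ 2 * j → X a j = 0 := by
    intro a j ha ha' hj hj'
    have h1 := hY (n - a) j (by omega) (by omega) hj
    simp only [Y, if_neg (show ¬ 2 * j < n by omega), if_pos (show n < 2 * (n - a) by omega),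
      show n - (n - a) = a by omega, h0 j (by omega) hj, ite_self, zero_add, zero_sub,
      neg_eq_zero] at h1
    exact h1
  -- (3)
  have hRR : ∀ i j, i < n → 1 ≤ j → 2 * j < n → X i (n - j) = if n < 2 * i then X (n - i) j else 0 := by
    intro i j hi hj hj'
    have h1 := hY i j hi hj (by omega)
    simp only [Y, if_pos hj', h0 j hj (by omega), ite_self, zero_add] at h1
    exact sub_eq_zero.1 h1
  have hRR' : ∀ a j, 1 ≤ a → 2 * a < n → 1 ≤ j → 2 * j < n → X (n - a) (n - j) = X a j := by
    intro a j ha ha' hj hj'
    rw [hRR (n - a) j (by omega) hj hj', if_pos (by omega), show n - (n - a) = a by omega]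
  -- different blocks on the left
  have hLL : ∀ a j, 1 ≤ a → 2 * a < n → 1 ≤ j → 2 * j < n → bl n a ≠ bl n j → X a j = 0 := by
    intro a j ha ha' hj hj' hb
    rcases Nat.lt_or_gt_of_ne hb with h | h
    · rw [← hRR' a j ha ha' hj hj']
      apply hblk _ _ (by omega) (by omega)
      unfold bl at *
      split_ifs at * <;> omega
    · exact hblk _ _ (by omega) (by omega) h
  -- the diagonal entries for odd left indices
  have hodd : ∀ i, 2 * i < n → i % 2 = 1 → X i i = X 0 0 := by
    intro i hi hpar
    have h1 := hw i (by omega)
    have hc : cc n i := by unfold cc; omega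
    rw [if_pos hc, if_neg (by omega), add_zero, Finset.sum_eq_single i, if_pos hc, mul_one] at h1
    · exact h1
    · intro m hm hmi
      rw [Finset.mem_range] at hm
      by_cases hcm : cc n m
      · have : X i m = 0 := by
          by_cases hm2 : 2 * m < n
          · apply hLL i m (by omega) hi (by unfold cc at hcm; omega) hm2
            unfold cc at hcm
            unfold bl
            split_ifs <;> omega
          · exact hLR i m (by omega) hi hm (by omega)
        rw [this, zero_mul]
      · rw [if_neg hcm, mul_zero]
    · intro h
      exact absurd (Finset.mem_range.2 (by omega)) h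
  have heven1 : ∀ i, 2 * i < n → 1 ≤ i → i % 2 = 0 → X i (i - 1) = 0 := by
    intro i hi hi1 hpar
    have h1 := hw i (by omega)
    have hc : ¬ cc n i := by unfold cc; omega
    have hc' : cc n (i - 1) := by unfold cc; omega
    rw [if_neg hc, if_neg (by omega), add_zero, Finset.sum_eq_single (i - 1), if_pos hc',
      mul_one] at h1
    · exact h1
    · intro m hm hmi
      rw [Finset.mem_range] at hm
      by_cases hcm : cc n m
      · have : X i m = 0 := by
          by_cases hm2 : 2 * m < n
          · apply hLL i m (by omega) hi (by unfold cc at hcm; omega) hm2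
            unfold cc at hcm
            unfold bl
            split_ifs <;> omega
          · exact hLR i m (by omega) hi hm (by omega)
        rw [this, zero_mul]
      · rw [if_neg hcm, mul_zero]
    · intro h
      exact absurd (Finset.mem_range.2 (by omega)) h
  -- rows on the right
  have heven2 : ∀ a, 2 * a < n → 1 ≤ a → a % 2 = 0 → X a a = X 0 0 := by
    intro a ha ha1 hpar
    have h1 := hw (n - a) (by omega)
    have hc : cc n (n - a) := by unfold cc; omega
    rw [if_pos hc, if_pos (by omega), show n - (n - a) = a by omega, hcol0 a ha1 (by omega),
      add_zero, Finset.sum_eq_single (n - a), if_pos hc, mul_one, hRR' a a ha1 ha ha1 ha] at h1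
    · exact h1
    · intro m hm hmi
      rw [Finset.mem_range] at hm
      by_cases hcm : cc n m
      · have : X (n - a) m = 0 := by
          by_cases hm2 : 2 * m ≤ n
          · apply hblk _ _ (by omega) hm
            unfold cc at hcm
            unfold bl
            split_ifs <;> omega
          · have e := hRR' a (n - m) ha1 ha (by omega) (by omega)
            rw [show n - (n - m) = m by omega] at e
            rw [e]
            apply hLL a (n - m) ha1 ha (by omega) (by omega)
            unfold cc at hcm
            unfold bl
            split_ifs <;> omega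
        rw [this, zero_mul]
      · rw [if_neg hcm, mul_zero]
    · intro h
      exact absurd (Finset.mem_range.2 (by omega)) h
  have hodd1 : ∀ a, 2 * (a + 1) < n → a % 2 = 1 → X a (a + 1) = 0 := by
    intro a ha hpar
    have h1 := hw (n - a) (by omega)
    have hc : ¬ cc n (n - a) := by unfold cc; omega
    have hc' : cc n (n - (a + 1)) := by unfold cc; omega
    rw [if_neg hc, if_pos (by omega), show n - (n - a) = a by omega, hcol0 a (by omega) (by omega),
      add_zero, Finset.sum_eq_single (n - (a + 1)), if_pos hc', mul_one,
      hRR' a (a + 1) (by omega) (by omega) (by omega) (by omega)] at h1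
    · exact h1
    · intro m hm hmi
      rw [Finset.mem_range] at hm
      by_cases hcm : cc n m
      · have : X (n - a) m = 0 := by
          by_cases hm2 : 2 * m ≤ n
          · apply hblk _ _ (by omega) hm
            unfold cc at hcm
            unfold bl
            split_ifs <;> omega
          · have e := hRR' a (n - m) (by omega) (by omega) (by omega) (by omega)
            rw [show n - (n - m) = m by omega] at e
            rw [e]
            apply hLL a (n - m) (by omega) (by omega) (by omega) (by omega)
            unfold cc at hcm
            unfold bl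
            split_ifs <;> omega
        rw [this, zero_mul]
      · rw [if_neg hcm, mul_zero]
    · intro h
      exact absurd (Finset.mem_range.2 (by omega)) h
  -- the special entry
  have hspec1 : ∀ a, n = 2 * a + 1 → a % 2 = 1 → X (n - a) a = 0 := by
    intro a ha hpar
    have h1 := hw (n - a) (by omega)
    have hc : ¬ cc n (n - a) := by unfold cc; omega
    have hc' : cc n a := by unfold cc; omega
    rw [if_neg hc, if_pos (by omega), show n - (n - a) = a by omega, hcol0 a (by omega) (by omega),
      add_zero, Finset.sum_eq_single a, if_pos hc', mul_one] at h1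
    · exact h1
    · intro m hm hmi
      rw [Finset.mem_range] at hm
      by_cases hcm : cc n m
      · have : X (n - a) m = 0 := by
          by_cases hm2 : 2 * m ≤ n
          · apply hblk _ _ (by omega) hm
            unfold cc at hcm
            unfold bl
            split_ifs <;> omega
          · have e := hRR' a (n - m) (by omega) (by omega) (by omega) (by omega)
            rw [show n - (n - m) = m by omega] at e
            rw [e]
            apply hLL a (n - m) (by omega) (by omega) (by omega) (by omega)
            unfold cc at hcm
            unfold bl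
            split_ifs <;> omega
        rw [this, zero_mul]
      · rw [if_neg hcm, mul_zero]
    · intro h
      exact absurd (Finset.mem_range.2 (by omega)) h
  have hspec2 : ∀ a, n = 2 * (a + 1) → a % 2 = 1 → X (n - a) (a + 1) = 0 := by
    intro a ha hpar
    have h1 := hw (n - a) (by omega)
    have hc : ¬ cc n (n - a) := by unfold cc; omega
    have hc' : cc n (a + 1) := by unfold cc; omega
    rw [if_neg hc, if_pos (by omega), show n - (n - a) = a by omega, hcol0 a (by omega) (by omega),
      add_zero, Finset.sum_eq_single (a + 1), if_pos hc', mul_one] at h1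
    · exact h1
    · intro m hm hmi
      rw [Finset.mem_range] at hm
      by_cases hcm : cc n m
      · have : X (n - a) m = 0 := by
          by_cases hm2 : 2 * m ≤ n
          · apply hblk _ _ (by omega) hm
            unfold cc at hcm
            unfold bl
            split_ifs <;> omega
          · have e := hRR' a (n - m) (by omega) (by omega) (by omega) (by omega)
            rw [show n - (n - m) = m by omega] at e
            rw [e]
            apply hLL a (n - m) (by omega) (by omega) (by omega) (by omega)
            unfold cc at hcm
            unfold bl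
            split_ifs <;> omega
        rw [this, zero_mul]
      · rw [if_neg hcm, mul_zero]
    · intro h
      exact absurd (Finset.mem_range.2 (by omega)) h
  have hmid : ∀ c, 2 * c = n → X c c = X 0 0 := by
    intro c hcn
    have h1 := hw c (by omega)
    have hc : cc n c := by unfold cc; omega
    rw [if_pos hc, if_neg (by omega), add_zero, Finset.sum_eq_single c, if_pos hc, mul_one] at h1
    · exact h1
    · intro m hm hmi
      rw [Finset.mem_range] at hm
      by_cases hcm : cc n m
      · have : X c m = 0 := by
          by_cases hm2 : 2 * m ≤ n
          · apply hblk _ _ (by omega) hm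
            unfold cc at hcm
            unfold bl
            split_ifs <;> omega
          · have e := hRR c (n - m) (by omega) (by omega) (by omega)
            rw [show n - (n - m) = m by omega, if_neg (by omega)] at e
            exact e
        rw [this, zero_mul]
      · rw [if_neg hcm, mul_zero]
    · intro h
      exact absurd (Finset.mem_range.2 (by omega)) h
  -- off-diagonal entries on the left
  have hLL' : ∀ a j, 1 ≤ a → 2 * a < n → 1 ≤ j → 2 * j < n → a ≠ j → X a j = 0 := by
    intro a j ha ha' hj hj' hne
    by_cases hb : bl n a = bl n j
    · by_cases hpar : a % 2 = 1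
      · have : j = a + 1 := by
          unfold bl at hb
          split_ifs at hb <;> omega
        subst this
        exact hodd1 a hj' hpar
      · have : j = a - 1 := by
          unfold bl at hb
          split_ifs at hb <;> omega
        subst this
        exact heven1 a ha' ha (by omega)
    · exact hLL a j ha ha' hj hj' hb
  have hLd : ∀ a, 1 ≤ a → 2 * a < n → X a a = X 0 0 := by
    intro a ha ha'
    by_cases hpar : a % 2 = 1
    · exact hodd a ha' hpar
    · exact heven2 a ha' ha (by omega)
  -- conclusion
  intro i j hi hj
  by_cases hi0 : i = 0
  · subst hi0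
    by_cases hj0 : j = 0
    · subst hj0
      simp
    · rw [if_neg (by omega)]
      exact h0 j (by omega) hj
  by_cases hj0 : j = 0
  · subst hj0
    rw [if_neg hi0]
    exact hcol0 i (by omega) hi
  rcases Nat.lt_trichotomy (2 * i) n with h | h | h
  · by_cases hj2 : 2 * j < n
    · by_cases hij : i = j
      · subst hij
        rw [if_pos rfl]
        exact hLd i (by omega) h
      · rw [if_neg hij]
        exact hLL' i j (by omega) h (by omega) hj2 hij
    · rw [if_neg (by omega)]
      exact hLR i j (by omega) h hj (by omega)
  · rcases Nat.lt_trichotomy (2 * j) n with h' | h' | h'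
    · rw [if_neg (by omega)]
      apply hblk i j hi hj
      unfold bl
      split_ifs <;> omega
    · have : i = j := by omega
      subst this
      rw [if_pos rfl]
      exact hmid i h
    · rw [if_neg (by omega)]
      have e := hRR i (n - j) hi (by omega) (by omega)
      rw [show n - (n - j) = j by omega, if_neg (by omega)] at e
      exact e
  · rcases Nat.lt_trichotomy (2 * j) n with h' | h' | h'
    · rw [if_neg (by omega)]
      by_cases hb : bl n j < bl n i
      · exact hblk i j hi hj hb
      · have h3 : n = 2 * j + 1 ∧ j % 2 = 1 ∧ i = n - j := by
          unfold bl at hb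
          split_ifs at hb <;> omega
        rw [h3.2.2]
        exact hspec1 j h3.1 h3.2.1
    · rw [if_neg (by omega)]
      by_cases hb : bl n j < bl n i
      · exact hblk i j hi hj hb
      · have h3 : j % 2 = 0 ∧ i = n - (j - 1) := by
          unfold bl at hb
          split_ifs at hb <;> omega
        have := hspec2 (j - 1) (by omega) (by omega)
        rw [show j - 1 + 1 = j by omega] at this
        rw [h3.2]
        exact this
    · have e := hRR' (n - i) (n - j) (by omega) (by omega) (by omega) (by omega)
      rw [show n - (n - i) = i by omega, show n - (n - j) = j by omega] at e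
      rw [e]
      by_cases hij : i = j
      · subst hij
        rw [if_pos rfl]
        exact hLd _ (by omega) (by omega)
      · rw [if_neg hij]
        exact hLL' _ _ (by omega) (by omega) (by omega) (by omega) (by omega)

end Pool.Agent.R725.Par
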