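import Mathlib

set_option autoImplicit false

/-!
Definitions for the statement of MP_da3f29_al: affine group schemes are given by commutative Hopf
algebras, their rational representations by coactions.
-/

namespace Pool.Agent.R725.Comod

open TensorProduct Coalgebra

section defs

variable (k : Type*) [Field k] (B : Type*) [CommRing B] [HopfAlgebra k B] (p r : ℕ)

/-- the ideal of `B = k[U]` which cuts out the kernel of the `r`-th Frobenius morphism of `U`: it is
generated by the powers `a ^ (p ^ r)`, where `a` runs over the augmentation ideal of `k[U]` -/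
def frobeniusIdeal : Ideal B :=
  Ideal.span {b | ∃ a : B, counit (R := k) a = 0 ∧ b = a ^ (p ^ r)}

/-- the left regular representation `(g f) x = f (g⁻¹ x)` of the affine group scheme with coordinate
algebra `B` on `B`, as a coaction: `f ↦ ∑ f₂ ⊗ S f₁` -/
noncomputable def leftRegular : B →ₗ[k] B ⊗[k] B :=
  (TensorProduct.comm k B B).toLinearMap ∘ₗ (HopfAlgebra.antipode k).rTensor B ∘ₗ comul

variable {k B} {C : Type*} [CommRing C] [HopfAlgebra k C]

/-- the homomorphism `π : k[U] → C` of Hopf algebras is (dual to) the inclusion of the kernel `U_r` of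
the `r`-th Frobenius morphism of `U`: it is surjective and its kernel is the Frobenius ideal -/
def IsFrobeniusKernel (π : B →ₐc[k] C) : Prop :=
  Function.Surjective π ∧ ∀ a : B, π a = 0 ↔ a ∈ frobeniusIdeal k B p r

variable {M : Type*} [AddCommGroup M] [Module k M] {N : Type*} [AddCommGroup N] [Module k N]

/-- `ρ` is a rational representation on `M` of the affine group scheme with coordinate algebra `B`,
that is a coassociative and counital coaction of the coalgebra `B` -/
structure IsRational (ρ : M →ₗ[k] M ⊗[k] B) : Prop where
  coassoc : ∀ m, TensorProduct.assoc k M B B (ρ.rTensor B (ρ m)) =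
    (comul (R := k) (A := B)).lTensor M (ρ m)
  counit : ∀ m, TensorProduct.rid k M ((counit (R := k) (A := B)).lTensor M (ρ m)) = m

/-- the restriction of the representation `ρ` of the group scheme `Spec B` on `M` along `π` is
isomorphic to the representation `σ` of the group scheme `Spec C` on `N` -/
def RestrictsTo (π : B →ₐc[k] C) (ρ : M →ₗ[k] M ⊗[k] B) (σ : N →ₗ[k] N ⊗[k] C) : Prop :=
  ∃ φ : M ≃ₗ[k] N, ∀ m : M, TensorProduct.map φ.toLinearMap (π : B →ₗ[k] C) (ρ m) = σ (φ m)

end defs

section structures

universe w w'

variable (k : Type*) [Field k] (B : Type*) [CommRing B] [HopfAlgebra k B] (p r : ℕ)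

/-- there is a rational `U`-module `M` whose restriction to the `r`-th Frobenius kernel `U_r` is the
regular module `k[U_r] = ind_1^(U_r) k` (for the left or the right regular action). Here `B = k[U]`
and `C = k[U_r]` -/
def HasRationalStructure : Prop :=
  ∃ (C : Type w) (_ : CommRing C) (_ : HopfAlgebra k C) (π : B →ₐc[k] C)
    (M : Type w') (_ : AddCommGroup M) (_ : Module k M) (ρ : M →ₗ[k] M ⊗[k] B),
    IsFrobeniusKernel p r π ∧ IsRational ρ ∧
      (RestrictsTo π ρ (leftRegular k C) ∨ RestrictsTo π ρ (comul (R := k) (A := C)))

end structures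

section unipotent

/-- the affine group scheme `U` over `F` with coordinate ring `A` is unipotent: it is isomorphic to a
closed subgroup scheme of the group of upper unitriangular `n × n` matrices, for some `n`. The matrix
`u` consists of the coordinate functions of the embedding -/
def IsUnipotent (F A : Type*) [Field F] [CommRing A] [HopfAlgebra F A] : Prop :=
  ∃ (n : ℕ) (u : Matrix (Fin n) (Fin n) A),
    (∀ i, u i i = 1) ∧ (∀ i j, j < i → u i j = 0) ∧
    (∀ i j, comul (R := F) (u i j) = ∑ l, u i l ⊗ₜ[F] u l j) ∧
    (∀ i j, counit (R := F) (u i j) = if i = j then 1 else 0) ∧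
    Algebra.adjoin F {a | ∃ i j, a = u i j} = ⊤

end unipotent

end Pool.Agent.R725.Comod
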