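import Pool.Agent.R725.Comod

set_option autoImplicit false
set_option linter.unusedSectionVars false

open TensorProduct Coalgebra Pool.Agent.R725.Comod

namespace Pool.Agent.R725.RatExample

section hopf

variable {k : Type*} [Field k] {C : Type*} [CommRing C] [HopfAlgebra k C]

lemma antipode_antipode (a : C) :
    HopfAlgebra.antipode k (HopfAlgebra.antipode k a) = a := by
  have h : (WithConv.toConv (AlgHom.id k C))⁻¹⁻¹ = WithConv.toConv (AlgHom.id k C) := inv_inv _
  have h2 := congrArg WithConv.ofConv h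
  exact AlgHom.congr_fun h2 a

lemma comul_antipode (a : C) :
    comul (R := k) (HopfAlgebra.antipode k a) =
      TensorProduct.map (HopfAlgebra.antipode k) (HopfAlgebra.antipode k)
        (TensorProduct.comm k C C (comul (R := k) a)) := by
  set i₁ : C →ₐ[k] C ⊗[k] C := Algebra.TensorProduct.includeLeft with hi₁
  set i₂ : C →ₐ[k] C ⊗[k] C := Algebra.TensorProduct.includeRight with hi₂
  have h1 : WithConv.toConv (Bialgebra.comulAlgHom k C) =
      WithConv.toConv i₁ * WithConv.toConv i₂ := by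
    rw [AlgHom.convMul_def]
    congr 1
    ext c
    simp only [AlgHom.comp_apply, Bialgebra.comulAlgHom_apply]
    have : ∀ t : C ⊗[k] C, t = (Algebra.TensorProduct.lmul' k (S := C ⊗[k] C))
        ((Algebra.TensorProduct.map i₁ i₂) t) := by
      intro t
      induction t with
      | zero => simp
      | add x y hx hy => rw [map_add, map_add, ← hx, ← hy]
      | tmul x y => simp [hi₁, hi₂]
    exact this _
  have h2 : (WithConv.toConv (Bialgebra.comulAlgHom k C))⁻¹ =
      (WithConv.toConv i₂)⁻¹ * (WithConv.toConv i₁)⁻¹ := by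
    rw [h1]
    exact mul_inv_rev (G := WithConv (C →ₐ[k] C ⊗[k] C)) (WithConv.toConv i₁) (WithConv.toConv i₂)
  rw [AlgHom.convMul_def] at h2
  have h3 := AlgHom.congr_fun (congrArg WithConv.ofConv h2) a
  have h4 : ∀ t : C ⊗[k] C, (Algebra.TensorProduct.lmul' k (S := C ⊗[k] C))
      ((Algebra.TensorProduct.map (i₂.comp (HopfAlgebra.antipodeAlgHom k C))
        (i₁.comp (HopfAlgebra.antipodeAlgHom k C))) t) =
      TensorProduct.map (HopfAlgebra.antipode k) (HopfAlgebra.antipode k)
        (TensorProduct.comm k C C t) := by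
    intro t
    induction t with
    | zero => simp
    | add x y hx hy => rw [map_add, map_add, map_add, map_add, ← hx, ← hy]
    | tmul x y => simp [hi₁, hi₂]
  rw [← h4]
  exact h3

variable (k C)

lemma rTensor_antipode_leftRegular (a : C) :
    (HopfAlgebra.antipode k).rTensor C (leftRegular k C a) =
      comul (R := k) (HopfAlgebra.antipode k a) := by
  have h : ∀ t : C ⊗[k] C, (HopfAlgebra.antipode k).rTensor C ((TensorProduct.comm k C C)
      ((HopfAlgebra.antipode k).rTensor C t)) =
      TensorProduct.map (HopfAlgebra.antipode k) (HopfAlgebra.antipode k)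
        (TensorProduct.comm k C C t) := by
    intro t
    induction t with
    | zero => simp
    | add x y hx hy => simp only [map_add, hx, hy]
    | tmul x y => simp
  rw [comul_antipode]
  exact h _

end hopf

section example_group

universe u v w

/-- the ring `F[x, y, z]`, the coordinate ring of the group `U` (the group law depends on `q = p ^ r`)
-/
def Coord (F : Type u) [Field F] (_p _r : ℕ) : Type u := MvPolynomial (Fin 3) F

variable (F : Type u) [Field F] (p r : ℕ)

noncomputable instance : CommRing (Coord F p r) :=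
  inferInstanceAs (CommRing (MvPolynomial (Fin 3) F))

noncomputable instance : Algebra F (Coord F p r) :=
  inferInstanceAs (Algebra F (MvPolynomial (Fin 3) F))

/-- the coordinate functions -/
noncomputable def co (i : Fin 3) : Coord F p r := MvPolynomial.X (R := F) i

variable {F p r}

/-- the algebra homomorphism with given values on the coordinates -/
noncomputable def evalAt {S : Type*} [CommRing S] [Algebra F S] (f : Fin 3 → S) :
    Coord F p r →ₐ[F] S := MvPolynomial.aeval (R := F) f

@[simp] lemma evalAt_co {S : Type*} [CommRing S] [Algebra F S] (f : Fin 3 → S) (i : Fin 3) :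
    evalAt (p := p) (r := r) f (co F p r i) = f i :=
  MvPolynomial.aeval_X (R := F) f i

lemma hom_ext {S : Type*} [CommRing S] [Algebra F S] {f g : Coord F p r →ₐ[F] S}
    (h0 : f (co F p r 0) = g (co F p r 0)) (h1 : f (co F p r 1) = g (co F p r 1))
    (h2 : f (co F p r 2) = g (co F p r 2)) : f = g := by
  refine MvPolynomial.algHom_ext (R := F) ?_
  intro i
  fin_cases i
  · exact h0
  · exact h1
  · exact h2

variable (F p r)

/-- the comultiplication dual to the law `(x, y, z) (x', y', z') = (x + x', y + y', z + z' + x y'^q)` -/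
noncomputable def comulU : Coord F p r →ₐ[F] Coord F p r ⊗[F] Coord F p r :=
  evalAt ![co F p r 0 ⊗ₜ[F] 1 + 1 ⊗ₜ[F] co F p r 0, co F p r 1 ⊗ₜ[F] 1 + 1 ⊗ₜ[F] co F p r 1,
    co F p r 2 ⊗ₜ[F] 1 + 1 ⊗ₜ[F] co F p r 2 + co F p r 0 ⊗ₜ[F] (co F p r 1 ^ (p ^ r))]

noncomputable def counitU : Coord F p r →ₐ[F] F := evalAt ![0, 0, 0]

noncomputable def antipodeU : Coord F p r →ₐ[F] Coord F p r :=
  evalAt ![- co F p r 0, - co F p r 1, - co F p r 2 + co F p r 0 * co F p r 1 ^ (p ^ r)]

variable [Fact p.Prime] [CharP F p]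

noncomputable instance : Bialgebra F (Coord F p r) :=
  Bialgebra.ofAlgHom (comulU F p r) (counitU F p r)
    (by
      refine hom_ext ?_ ?_ ?_
      · simp [comulU, TensorProduct.add_tmul, TensorProduct.tmul_add, add_assoc, Algebra.TensorProduct.one_def]
      · simp [comulU, TensorProduct.add_tmul, TensorProduct.tmul_add, add_assoc, Algebra.TensorProduct.one_def]
      · simp [comulU, TensorProduct.add_tmul, TensorProduct.tmul_add, add_assoc, Algebra.TensorProduct.one_def, add_pow_q (k := F)]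
        abel)
    (by
      refine hom_ext ?_ ?_ ?_
      · simp [comulU, counitU]
      · simp [comulU, counitU]
      · simp [comulU, counitU])
    (by
      refine hom_ext ?_ ?_ ?_
      · simp [comulU, counitU]
      · simp [comulU, counitU]
      · simp [comulU, counitU, zero_pow (pow_ne_zero r (Fact.out : p.Prime).ne_zero)])

lemma comul_co0 : comul (R := F) (co F p r 0) = co F p r 0 ⊗ₜ[F] 1 + 1 ⊗ₜ[F] co F p r 0 :=
  evalAt_co _ _

lemma comul_co1 : comul (R := F) (co F p r 1) = co F p r 1 ⊗ₜ[F] 1 + 1 ⊗ₜ[F] co F p r 1 :=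
  evalAt_co _ _

lemma comul_co2 : comul (R := F) (co F p r 2) = co F p r 2 ⊗ₜ[F] 1 + 1 ⊗ₜ[F] co F p r 2 +
    co F p r 0 ⊗ₜ[F] (co F p r 1 ^ (p ^ r)) :=
  evalAt_co _ _

lemma counit_co (i : Fin 3) : counit (R := F) (co F p r i) = 0 := by
  have : counit (R := F) (co F p r i) = (![0, 0, 0] : Fin 3 → F) i := evalAt_co _ _
  rw [this]
  fin_cases i <;> rfl

noncomputable instance : HopfAlgebra F (Coord F p r) :=
  HopfAlgebra.ofAlgHom (antipodeU F p r)
    (by
      refine hom_ext ?_ ?_ ?_
      · simp [comul_co0, counit_co, antipodeU]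
      · simp [comul_co1, counit_co, antipodeU]
      · simp [comul_co2, counit_co, antipodeU])
    (by
      have hneg : ∀ a : Coord F p r, (-a) ^ (p ^ r) = - a ^ (p ^ r) := by
        intro a
        have h := add_pow_q (k := F) p r a (-a)
        rw [add_neg_cancel, zero_pow (pow_ne_zero r (Fact.out : p.Prime).ne_zero)] at h
        exact (neg_eq_of_add_eq_zero_right h.symm).symm
      refine hom_ext ?_ ?_ ?_
      · simp [comul_co0, counit_co, antipodeU]
      · simp [comul_co1, counit_co, antipodeU]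
      · simp [comul_co2, counit_co, antipodeU, hneg])

lemma isUnipotent : IsUnipotent F (Coord F p r) := by
  refine ⟨5, !![1, co F p r 0, co F p r 2, 0, 0;
    0, 1, co F p r 1 ^ (p ^ r), 0, 0;
    0, 0, 1, 0, 0;
    0, 0, 0, 1, co F p r 1;
    0, 0, 0, 0, 1], ?_, ?_, ?_, ?_, ?_⟩
  · intro i
    fin_cases i <;> rfl
  · intro i j hij
    fin_cases i <;> fin_cases j <;> first | rfl | (exact absurd hij (by decide))
  · intro i j
    have h1 : comul (R := F) (co F p r 1 ^ (p ^ r)) =
        (co F p r 1 ^ (p ^ r)) ⊗ₜ[F] 1 + 1 ⊗ₜ[F] (co F p r 1 ^ (p ^ r)) := by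
      have h2 : comul (R := F) (co F p r 1 ^ (p ^ r)) =
        (comul (R := F) (co F p r 1)) ^ (p ^ r) := by simp
      rw [h2, comul_co1, add_pow_q (k := F)]
      simp
    fin_cases i <;> fin_cases j <;>
      simp [Fin.sum_univ_succ, comul_co0, comul_co1, comul_co2, h1, Algebra.TensorProduct.one_def] <;>
      abel
  · intro i j
    fin_cases i <;> fin_cases j <;>
      simp [counit_co, (Fact.out : p.Prime).ne_zero]
  · have h1 : Algebra.adjoin F (Set.range (co F p r)) = ⊤ := MvPolynomial.adjoin_range_X (R := F)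
    rw [eq_top_iff, ← h1]
    refine Algebra.adjoin_mono ?_
    rintro _ ⟨i, rfl⟩
    fin_cases i
    · exact ⟨0, 1, rfl⟩
    · exact ⟨3, 4, rfl⟩
    · exact ⟨0, 2, rfl⟩

/-- the index set of the monomials -/
noncomputable def idx : (Fin 3 →₀ ℕ) ≃ ℕ × ℕ × ℕ where
  toFun s := (s 0, s 1, s 2)
  invFun t := Finsupp.equivFunOnFinite.symm ![t.1, t.2.1, t.2.2]
  left_inv s := by
    ext i
    fin_cases i <;> rfl
  right_inv t := rfl

noncomputable def equivU : MvPolynomial (Fin 3) F ≃ₐ[F] Coord F p r := AlgEquiv.refl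

lemma equivU_X (i : Fin 3) : equivU F p r (MvPolynomial.X i) = co F p r i := rfl

/-- the basis of monomials of `F[U]` -/
noncomputable def basis0 : Module.Basis (ℕ × ℕ × ℕ) F (Coord F p r) :=
  ((MvPolynomial.basisMonomials (Fin 3) F).reindex idx).map (equivU F p r).toLinearEquiv

lemma basis0_apply (i j l : ℕ) : basis0 F p r (i, j, l) =
    (co F p r 0) ^ i * (co F p r 1) ^ j * (co F p r 2) ^ l := by
  rw [basis0, Module.Basis.map_apply, Module.Basis.reindex_apply, MvPolynomial.coe_basisMonomials]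
  beta_reduce
  rw [MvPolynomial.monomial_eq, Finsupp.prod_fintype _ _ (by simp), Fin.prod_univ_three]
  simp only [map_one, one_mul, AlgEquiv.toLinearEquiv_apply, map_mul, map_pow, equivU_X]
  rfl

variable (k : Type v) [Field k] [Algebra F k]

/-- the basis of monomials of `k[U]` -/
noncomputable def basisU : Module.Basis (ℕ × ℕ × ℕ) k (k ⊗[F] Coord F p r) :=
  (basis0 F p r).baseChange k

lemma basisU_apply (i j l : ℕ) : basisU F p r k (i, j, l) =
    (1 ⊗ₜ[F] co F p r 0) ^ i * (1 ⊗ₜ[F] co F p r 1) ^ j * (1 ⊗ₜ[F] co F p r 2) ^ l := by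
  rw [basisU, Module.Basis.baseChange_apply, basis0_apply]
  simp only [Algebra.TensorProduct.tmul_pow, one_pow, Algebra.TensorProduct.tmul_mul_tmul, mul_one]

lemma comulU0 : comul (R := k) ((1 : k) ⊗ₜ[F] co F p r 0) =
    ((1 : k) ⊗ₜ[F] co F p r 0) ⊗ₜ[k] 1 + 1 ⊗ₜ[k] ((1 : k) ⊗ₜ[F] co F p r 0) := by
  rw [TensorProduct.comul_tmul, comul_co0]
  simp [TensorProduct.tmul_add, Algebra.TensorProduct.one_def]

lemma comulU1 : comul (R := k) ((1 : k) ⊗ₜ[F] co F p r 1) =
    ((1 : k) ⊗ₜ[F] co F p r 1) ⊗ₜ[k] 1 + 1 ⊗ₜ[k] ((1 : k) ⊗ₜ[F] co F p r 1) := by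
  rw [TensorProduct.comul_tmul, comul_co1]
  simp [TensorProduct.tmul_add, Algebra.TensorProduct.one_def]

lemma comulU2 : comul (R := k) ((1 : k) ⊗ₜ[F] co F p r 2) =
    ((1 : k) ⊗ₜ[F] co F p r 2) ⊗ₜ[k] 1 + 1 ⊗ₜ[k] ((1 : k) ⊗ₜ[F] co F p r 2) +
    ((1 : k) ⊗ₜ[F] co F p r 0) ⊗ₜ[k] (((1 : k) ⊗ₜ[F] co F p r 1) ^ (p ^ r)) := by
  rw [TensorProduct.comul_tmul, comul_co2]
  simp [TensorProduct.tmul_add, Algebra.TensorProduct.one_def]

lemma counitU' (i : Fin 3) : counit (R := k) ((1 : k) ⊗ₜ[F] co F p r i) = 0 := by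
  rw [TensorProduct.counit_tmul, counit_co]
  simp

end example_group

section transfer

variable {k : Type*} [Field k] {B : Type*} [CommRing B] [HopfAlgebra k B]
  {C : Type*} [CommRing C] [HopfAlgebra k C] {M : Type*} [AddCommGroup M] [Module k M]

lemma right_of_left (π : B →ₐc[k] C) (ρ : M →ₗ[k] M ⊗[k] B)
    (h : RestrictsTo π ρ (leftRegular k C)) : RestrictsTo π ρ (comul (R := k) (A := C)) := by
  obtain ⟨φ, hφ⟩ := h
  set S : C ≃ₗ[k] C :=
    LinearEquiv.ofInvolutive (HopfAlgebra.antipode k) antipode_antipode with hS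
  refine ⟨φ.trans S, fun m => ?_⟩
  have h1 := congrArg ((HopfAlgebra.antipode k).rTensor C) (hφ m)
  rw [rTensor_antipode_leftRegular, ← LinearMap.comp_apply, LinearMap.rTensor_comp_map] at h1
  exact h1

end transfer

end Pool.Agent.R725.RatExample
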